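import Mathlib

set_option autoImplicit false

namespace Pool.Agent.Helper87.BP

open MeasureTheory Finset

noncomputable section

/-- The function `f(h) = artanh (θ tanh h)` of the belief propagation update. -/
def fBP (θ h : ℝ) : ℝ := Real.artanh (θ * Real.tanh h)

open Classical in
/-- Belief propagation messages on the graph with adjacency relation `R`, started from `h0`:
`msg f R h0 t i j` is the message from `i` to `j` after `t` rounds. -/
def msg {n : ℕ} (f : ℝ → ℝ) (R : Fin n → Fin n → Prop) (h0 : Fin n → Fin n → ℝ) :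
    ℕ → Fin n → Fin n → ℝ
  | 0 => h0
  | t + 1 => fun i j =>
      ∑ k ∈ univ.filter (fun k => R k i ∧ k ≠ j), f (msg f R h0 t k i)

open Classical in
/-- The total incoming field at `i` after `t` rounds. -/
def field {n : ℕ} (f : ℝ → ℝ) (R : Fin n → Fin n → Prop) (h0 : Fin n → Fin n → ℝ) (t : ℕ)
    (i : Fin n) : ℝ :=
  ∑ k ∈ univ.filter (fun k => R k i), f (msg f R h0 t k i)

/-- The sign of `x`, with ties (`x = 0`) resolved by `coin`. -/
def tieSign (x coin : ℝ) : ℝ := if 0 < x then 1 else if x < 0 then -1 else coin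

/-- The estimate at `i` after `t` rounds. -/
def est {n : ℕ} (f : ℝ → ℝ) (R : Fin n → Fin n → Prop) (h0 : Fin n → Fin n → ℝ)
    (c : Fin n → ℝ) (t : ℕ) (i : Fin n) : ℝ := tieSign (field f R h0 t i) (c i)

/-- Index set of the independent uniform variables: one for each unordered pair of vertices
(edge), one for each ordered pair (initial message), one for each vertex (tie-breaking coin). -/
abbrev Idx (n : ℕ) := Sym2 (Fin n) ⊕ (Fin n × Fin n) ⊕ Fin n

/-- Sample space: independent uniform variables on `[0,1]`, with the product measure `volume`. -/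
abbrev Om (n : ℕ) := Idx n → unitInterval

/-- The label `±1` of a vertex. -/
def lab {n : ℕ} (σ : Fin n → Bool) (i : Fin n) : ℝ := if σ i then 1 else -1

/-- Adjacency in the block model `G(n, a/n, b/n)` given the labels `σ`: the pair `{i,j}` is an
edge when its uniform variable is below `a/n` (equal labels) or `b/n` (different labels). -/
def adj {n : ℕ} (a b : ℝ) (σ : Fin n → Bool) (ω : Om n) (i j : Fin n) : Prop :=
  i ≠ j ∧ (ω (Sum.inl s(i, j)) : ℝ) < (if σ i = σ j then a / n else b / n)

/-- Initial message on the ordered pair `(i,j)`: uniform on `[-1,1]`. -/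
def init {n : ℕ} (ω : Om n) (i j : Fin n) : ℝ := 2 * (ω (Sum.inr (Sum.inl (i, j))) : ℝ) - 1

/-- Fair coin of the vertex `i`, with values `1` and `-1`. -/
def coin {n : ℕ} (ω : Om n) (i : Fin n) : ℝ :=
  if (ω (Sum.inr (Sum.inr i)) : ℝ) < 1 / 2 then 1 else -1

/-- Overlap `(1/n) ∑ i, σ̂ i * σ i` of the belief propagation estimate after `t` rounds with the
labels. -/
def overlap {n : ℕ} (a b : ℝ) (t : ℕ) (σ : Fin n → Bool) (ω : Om n) : ℝ :=
  (∑ i : Fin n, est (fBP ((a - b) / (a + b))) (adj a b σ ω) (init ω) (coin ω) t i * lab σ i) / n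

/-- Probability that the absolute overlap is at least `ε`, the labels being uniform on
`{±1}^n` and independent of `ω`. -/
def succProb (n t : ℕ) (a b ε : ℝ) : ℝ :=
  (∑ σ : Fin n → Bool, (volume : Measure (Om n)).real {ω | ε ≤ |overlap a b t σ ω|}) / 2 ^ n

end

end Pool.Agent.Helper87.BP
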