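import Pool.Agent.Helper87.BP.Struct

set_option autoImplicit false

namespace Pool.Agent.Helper87.BP

open MeasureTheory Finset ProbabilityTheory

section general

variable {ι : Type*} [Fintype ι] [DecidableEq ι]

/-- Extension of a partially defined configuration. -/
noncomputable def extd (A : Finset ι) (x : A → unitInterval) : ι → unitInterval :=
  fun i => if h : i ∈ A then x ⟨i, h⟩ else 0

lemma measurable_extd (A : Finset ι) : Measurable (extd A) := by
  unfold extd
  rw [measurable_pi_iff]
  intro i
  by_cases h : i ∈ A
  · simp only [h, dite_true]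
    exact measurable_pi_apply _
  · simp only [h, dite_false]
    exact measurable_const

lemma iIndep_coord : iIndepFun (fun (i : ι) (ω : ι → unitInterval) => ω i)
    (volume : Measure (ι → unitInterval)) := by
  rw [volume_pi]
  exact iIndepFun_pi (X := fun _ => id) (fun _ => aemeasurable_id)

lemma indep_of_dependsOn {β γ : Type*} [MeasurableSpace β] [MeasurableSpace γ]
    {f : (ι → unitInterval) → β} {g : (ι → unitInterval) → γ}
    (hf : Measurable f) (hg : Measurable g) {A B : Finset ι} (hAB : Disjoint A B)
    (hfA : DependsOn f (A : Set ι)) (hgB : DependsOn g (B : Set ι)) :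
    IndepFun f g (volume : Measure (ι → unitInterval)) := by
  have h := (iIndep_coord (ι := ι)).indepFun_finset A B hAB (fun i => measurable_pi_apply i)
  have h1 : f = (f ∘ extd A) ∘ (fun (ω : ι → unitInterval) (i : A) => ω i) := by
    funext ω
    apply hfA
    intro i hi
    have : i ∈ A := by exact_mod_cast hi
    simp [extd, this]
  have h2 : g = (g ∘ extd B) ∘ (fun (ω : ι → unitInterval) (i : B) => ω i) := by
    funext ω
    apply hgB
    intro i hi
    have : i ∈ B := by exact_mod_cast hi
    simp [extd, this]
  rw [h1, h2]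
  exact h.comp (hf.comp (measurable_extd A)) (hg.comp (measurable_extd B))

lemma indep_real {A B : Finset ι} (hAB : Disjoint A B) {E F : Set (ι → unitInterval)}
    (hE : MeasurableSet E) (hF : MeasurableSet F)
    (hEA : DependsOn (fun ω => ω ∈ E) (A : Set ι)) (hFB : DependsOn (fun ω => ω ∈ F) (B : Set ι)) :
    (volume : Measure (ι → unitInterval)).real (E ∩ F)
      = (volume : Measure (ι → unitInterval)).real E * (volume : Measure (ι → unitInterval)).real F := by
  have h := indep_of_dependsOn (f := fun ω => ω ∈ E) (g := fun ω => ω ∈ F)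
    (measurable_mem.2 hE) (measurable_mem.2 hF) hAB hEA hFB
  have h1 := h.measure_inter_preimage_eq_mul {True} {True} (by trivial) (by trivial)
  have e1 : (fun ω => ω ∈ E) ⁻¹' {True} = E := by ext; simp
  have e2 : (fun ω => ω ∈ F) ⁻¹' {True} = F := by ext; simp
  rw [e1, e2] at h1
  unfold Measure.real
  rw [h1, ENNReal.toReal_mul]

/-- Probability that all coordinates in `F` are at least `p`. -/
lemma prob_all_ge {p : ℝ} (h0 : 0 ≤ p) (h1 : p ≤ 1) (F : Finset ι) :
    (volume : Measure (ι → unitInterval)).real {ω | ∀ e ∈ F, p ≤ (ω e : ℝ)} = (1 - p) ^ F.card := by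
  have e1 : {ω : ι → unitInterval | ∀ e ∈ F, p ≤ (ω e : ℝ)}
      = Set.pi Set.univ (fun e => if e ∈ F then Set.Ici (⟨p, h0, h1⟩ : unitInterval) else Set.univ) := by
    ext ω
    simp only [Set.mem_ofPred_eq, Set.mem_pi, Set.mem_univ, true_implies]
    apply forall_congr'
    intro e
    by_cases he : e ∈ F
    · simp only [he, if_true, Set.mem_Ici, true_implies]
      exact Iff.rfl
    · simp [he]
  rw [e1]
  unfold Measure.real
  rw [volume_pi, Measure.pi_pi, ENNReal.toReal_prod]
  have : ∀ e : ι, ((volume : Measure unitInterval) (if e ∈ F then Set.Ici (⟨p, h0, h1⟩ : unitInterval) else Set.univ)).toReal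
      = if e ∈ F then (1 - p) else 1 := by
    intro e
    split_ifs
    · rw [unitInterval.volume_Ici]
      simp only
      rw [ENNReal.toReal_ofReal (by linarith)]
    · simp
  simp_rw [this]
  rw [prod_ite_mem, prod_const]
  simp

end general

end Pool.Agent.Helper87.BP
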