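import Mathlib

set_option autoImplicit false

namespace Pool.Agent.Helper87.BP

open Finset

lemma binom_second_moment (n : ℕ) :
    ∑ k ∈ range (n + 1), ((n : ℝ) - 2 * k) ^ 2 * (n.choose k : ℝ) = (n : ℝ) * 2 ^ n := by
  have h := congrArg (Polynomial.eval (1 / 2 : ℝ)) (bernsteinPolynomial.variance ℝ n)
  rw [Polynomial.eval_finsetSum] at h
  simp only [Polynomial.eval_mul, Polynomial.eval_pow, Polynomial.eval_sub, Polynomial.eval_smul,
    Polynomial.eval_X, Polynomial.eval_natCast, bernsteinPolynomial, Polynomial.eval_one,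
    nsmul_eq_mul, smul_eq_mul] at h
  have h2 : ∀ k ∈ range (n + 1), ((n : ℝ) - 2 * k) ^ 2 * (n.choose k : ℝ)
      = (4 * 2 ^ n) * (((n : ℝ) * (1 / 2) - k) ^ 2 * ((n.choose k) * (1 / 2) ^ k * (1 - 1 / 2) ^ (n - k))) := by
    intro k hk
    rw [mem_range] at hk
    have e : (1 / 2 : ℝ) ^ k * (1 - 1 / 2) ^ (n - k) = 1 / 2 ^ n := by
      have : (1 : ℝ) - 1 / 2 = 1 / 2 := by norm_num
      rw [this, ← pow_add, one_div, inv_pow, one_div]
      congr 2; omega
    rw [mul_assoc ((n.choose k : ℝ)), e]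
    field_simp
    ring
  rw [sum_congr rfl h2, ← mul_sum, h]
  ring

lemma choose_mono_half {n i j : ℕ} (hij : i ≤ j) (hj : 2 * j ≤ n) : n.choose i ≤ n.choose j := by
  induction j, hij using Nat.le_induction with
  | base => exact le_refl _
  | succ j hij ih =>
    refine le_trans (ih (by omega)) ?_
    exact Nat.choose_le_succ_of_lt_half_left (by omega)

lemma choose_central {n i j : ℕ} (hi : i ≤ n) (hj : j ≤ n)
    (h : |(n : ℤ) - 2 * j| ≤ |(n : ℤ) - 2 * i|) : n.choose i ≤ n.choose j := by
  -- reduce both to the lower half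
  have key : ∀ k : ℕ, k ≤ n → ∃ k', 2 * k' ≤ n ∧ n.choose k = n.choose k' ∧
      |(n : ℤ) - 2 * k| = (n : ℤ) - 2 * k' := by
    intro k hk
    by_cases h2 : 2 * k ≤ n
    · refine ⟨k, h2, rfl, ?_⟩
      rw [abs_of_nonneg]; omega
    · refine ⟨n - k, by omega, (Nat.choose_symm hk).symm, ?_⟩
      rw [abs_of_nonpos (by omega), Nat.cast_sub hk]; ring
  obtain ⟨i', hi1, hi2, hi3⟩ := key i hi
  obtain ⟨j', hj1, hj2, hj3⟩ := key j hj
  rw [hi2, hj2]
  apply choose_mono_half _ hj1
  rw [hi3, hj3] at h
  omega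

/-- Mass of a central window of width `L`. -/
lemma central_window {n L : ℕ} (hL : 1 ≤ L) (hLn : L ^ 2 ≤ n) :
    (L : ℝ) / (8 * Real.sqrt n) * 2 ^ n
      ≤ ∑ k ∈ (range (n + 1)).filter (fun k : ℕ => |(n : ℤ) - 2 * k| ≤ L), (n.choose k : ℝ) := by
  classical
  have hn1 : 1 ≤ n := le_trans (by nlinarith) hLn
  have hnr : (1 : ℝ) ≤ n := by exact_mod_cast hn1
  set s := Real.sqrt n with hs
  have hs2 : s ^ 2 = n := Real.sq_sqrt (by positivity)
  have hs1 : 1 ≤ s := by
    rw [hs]; exact Real.one_le_sqrt.2 hnr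
  have hLs : (L : ℝ) ≤ s := by
    apply Real.le_sqrt_of_sq_le
    exact_mod_cast hLn
  set inner := (range (n + 1)).filter (fun k : ℕ => |(n : ℤ) - 2 * k| ≤ L) with hinner
  set outer := (range (n + 1)).filter (fun k : ℕ => (((n : ℤ) - 2 * k : ℤ) : ℝ) ^ 2 < 4 * n) with houter
  -- Chebyshev
  have htot : ∑ k ∈ range (n + 1), (n.choose k : ℝ) = 2 ^ n := by
    have := Nat.sum_range_choose n
    exact_mod_cast this
  have hcheb : (3 / 4 : ℝ) * 2 ^ n ≤ ∑ k ∈ outer, (n.choose k : ℝ) := by
    have h1 := sum_filter_add_sum_filter_not (range (n + 1))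
      (fun k : ℕ => (((n : ℤ) - 2 * k : ℤ) : ℝ) ^ 2 < 4 * n) (fun k => (n.choose k : ℝ))
    rw [htot] at h1
    have h2 : 4 * n * ∑ k ∈ (range (n + 1)).filter
        (fun k : ℕ => ¬ (((n : ℤ) - 2 * k : ℤ) : ℝ) ^ 2 < 4 * n), (n.choose k : ℝ) ≤ n * 2 ^ n := by
      rw [mul_sum, ← binom_second_moment]
      calc _ ≤ ∑ k ∈ (range (n + 1)).filter
              (fun k : ℕ => ¬ (((n : ℤ) - 2 * k : ℤ) : ℝ) ^ 2 < 4 * n), ((n : ℝ) - 2 * k) ^ 2 * (n.choose k) := by
            apply sum_le_sum
            intro k hk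
            simp only [mem_filter, not_lt] at hk
            apply mul_le_mul_of_nonneg_right _ (Nat.cast_nonneg _)
            have := hk.2
            push_cast at this
            exact this
        _ ≤ _ := by
            apply sum_le_sum_of_subset_of_nonneg (filter_subset _ _)
            intro k _ _
            positivity
    have h3 : ∑ k ∈ (range (n + 1)).filter
        (fun k : ℕ => ¬ (((n : ℤ) - 2 * k : ℤ) : ℝ) ^ 2 < 4 * n), (n.choose k : ℝ) ≤ 2 ^ n / 4 := by
      rw [le_div_iff₀ (by norm_num)]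
      have hnpos : (0 : ℝ) < n := by linarith
      have : n * ((∑ k ∈ (range (n + 1)).filter
        (fun k : ℕ => ¬ (((n : ℤ) - 2 * k : ℤ) : ℝ) ^ 2 < 4 * n), (n.choose k : ℝ)) * 4) ≤ n * 2 ^ n := by
        linarith
      exact le_of_mul_le_mul_left this hnpos
    linarith
  -- cardinality of inner
  have hcard_inner : L ≤ inner.card := by
    -- the integers k = m, ..., with m = (n - L + 1) / 2
    have hsub : (Finset.Ico ((n - L + 1) / 2) ((n - L + 1) / 2 + L)) ⊆ inner := by
      intro k hk
      rw [Finset.mem_Ico] at hk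
      simp only [hinner, mem_filter, mem_range]
      have hLn' : L ≤ n := le_trans (by nlinarith) hLn
      constructor
      · omega
      · rw [abs_le]; constructor <;> omega
    have := card_le_card hsub
    simp at this
    exact this
  -- cardinality of outer
  have hcard_outer : (outer.card : ℝ) ≤ 2 * s + 2 := by
    set t := Nat.floor (2 * s) with ht
    have hsub : outer ⊆ Finset.Icc ((n - t + 1) / 2) ((n + t) / 2) := by
      intro k hk
      simp only [houter, mem_filter, mem_range] at hk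
      rw [Finset.mem_Icc]
      have h1 : |(((n : ℤ) - 2 * k : ℤ) : ℝ)| < 2 * s := by
        apply abs_lt_of_sq_lt_sq _ (by positivity)
        rw [mul_pow, hs2]; linarith [hk.2]
      have h2 : |(n : ℤ) - 2 * k| ≤ t := by
        have h3 : (((|(n : ℤ) - 2 * k|).toNat : ℕ) : ℝ) ≤ 2 * s := by
          have h4 : (((|(n : ℤ) - 2 * k|).toNat : ℤ) : ℝ) = |(((n : ℤ) - 2 * k : ℤ) : ℝ)| := by
            rw [Int.toNat_of_nonneg (abs_nonneg _)]
            push_cast
            rfl
          have h5 : (((|(n : ℤ) - 2 * k|).toNat : ℕ) : ℝ) = (((|(n : ℤ) - 2 * k|).toNat : ℤ) : ℝ) := by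
            norm_cast
          rw [h5, h4]; exact h1.le
        have h6 := Nat.le_floor h3
        rw [← ht] at h6
        have h7 : ((|(n : ℤ) - 2 * k|).toNat : ℤ) ≤ (t : ℤ) := by exact_mod_cast h6
        rw [Int.toNat_of_nonneg (abs_nonneg _)] at h7
        exact h7
      rw [abs_le] at h2
      omega
    have h1 := card_le_card hsub
    rw [Nat.card_Icc] at h1
    have h2 : (n + t) / 2 + 1 - (n - t + 1) / 2 ≤ t + 2 := by omega
    have h3 : (outer.card : ℝ) ≤ t + 2 := by exact_mod_cast le_trans h1 h2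
    have h4 : (t : ℝ) ≤ 2 * s := Nat.floor_le (by positivity)
    linarith
  -- the smallest binomial coefficient of the window
  have hne : inner.Nonempty := by
    rw [← card_pos]; omega
  obtain ⟨k0, hk0, hmin⟩ := exists_min_image inner (fun k => n.choose k) hne
  have hinner_ge : (L : ℝ) * (n.choose k0) ≤ ∑ k ∈ inner, (n.choose k : ℝ) := by
    calc (L : ℝ) * (n.choose k0) ≤ inner.card * (n.choose k0 : ℝ) := by
          apply mul_le_mul_of_nonneg_right _ (Nat.cast_nonneg _)
          exact_mod_cast hcard_inner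
      _ = ∑ k ∈ inner, (n.choose k0 : ℝ) := by simp
      _ ≤ _ := sum_le_sum (fun k hk => by exact_mod_cast hmin k hk)
  have houter_le : ∑ k ∈ outer, (n.choose k : ℝ) ≤ ∑ k ∈ inner, (n.choose k : ℝ) + (2 * s + 2) * (n.choose k0) := by
    calc ∑ k ∈ outer, (n.choose k : ℝ)
        ≤ ∑ k ∈ inner ∪ (outer \ inner), (n.choose k : ℝ) := by
          apply sum_le_sum_of_subset_of_nonneg
          · intro k hk
            by_cases h : k ∈ inner
            · exact mem_union_left _ h
            · exact mem_union_right _ (mem_sdiff.2 ⟨hk, h⟩)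
          · intro k _ _; exact Nat.cast_nonneg _
      _ = ∑ k ∈ inner, (n.choose k : ℝ) + ∑ k ∈ outer \ inner, (n.choose k : ℝ) :=
          sum_union disjoint_sdiff
      _ ≤ ∑ k ∈ inner, (n.choose k : ℝ) + ∑ k ∈ outer \ inner, (n.choose k0 : ℝ) := by
          gcongr with k hk
          rw [mem_sdiff] at hk
          have h1 : k ≤ n := by
            have := hk.1; simp only [houter, mem_filter, mem_range] at this; omega
          have h2 : k0 ≤ n := by
            have := hk0; simp only [hinner, mem_filter, mem_range] at this; omega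
          have h3 : |(n : ℤ) - 2 * k0| ≤ L := by
            simp only [hinner, mem_filter] at hk0; exact hk0.2
          have h4 : ¬ |(n : ℤ) - 2 * k| ≤ L := by
            intro h
            apply hk.2
            simp only [hinner, mem_filter, mem_range]
            exact ⟨by omega, h⟩
          exact choose_central h1 h2 (by omega)
      _ ≤ _ := by
          gcongr
          rw [sum_const, nsmul_eq_mul]
          apply mul_le_mul_of_nonneg_right _ (Nat.cast_nonneg _)
          refine le_trans ?_ hcard_outer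
          exact_mod_cast card_le_card sdiff_subset
  have hLpos : (0 : ℝ) < L := by exact_mod_cast hL
  set B := ∑ k ∈ inner, (n.choose k : ℝ) with hB
  have h1 : (3 / 4 : ℝ) * 2 ^ n ≤ B + (2 * s + 2) * (B / L) := by
    have : (n.choose k0 : ℝ) ≤ B / L := by
      rw [le_div_iff₀ hLpos]; linarith
    have h2 := mul_le_mul_of_nonneg_left this (by linarith : (0 : ℝ) ≤ 2 * s + 2)
    linarith
  have hB0 : 0 ≤ B := sum_nonneg (fun k _ => Nat.cast_nonneg _)
  -- B * (L + 2 s + 2) ≥ 3/4 * 2^n * L and L + 2 s + 2 ≤ 5 s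
  have h2 : (3 / 4 : ℝ) * 2 ^ n * L ≤ B * (5 * s) := by
    have h3 := mul_le_mul_of_nonneg_right h1 hLpos.le
    have h4 : (B + (2 * s + 2) * (B / L)) * L = B * (L + 2 * s + 2) := by
      field_simp; ring
    rw [h4] at h3
    refine le_trans h3 ?_
    apply mul_le_mul_of_nonneg_left _ hB0
    linarith
  have hspos : 0 < s := by linarith
  rw [div_mul_eq_mul_div, div_le_iff₀ (by positivity)]
  have h2n : (0 : ℝ) < 2 ^ n := by positivity
  nlinarith [mul_pos hLpos h2n, mul_nonneg hB0 hspos.le]

end Pool.Agent.Helper87.BP
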