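import Pool.Agent.Helper87.BP.Decomp
import Pool.Agent.Helper87.BP.Binom

set_option autoImplicit false

namespace Pool.Agent.Helper87.BP

open MeasureTheory Finset ProbabilityTheory

variable {n : ℕ} {f : ℝ → ℝ}

/-- Windows of width `w`. -/
def Iw (w : ℝ) (m : ℤ) : Set ℝ := {x | ⌊x / w⌋ = m}

lemma measurable_Iw (w : ℝ) (m : ℤ) : MeasurableSet (Iw w m) := by
  have : Iw w m = (fun x : ℝ => ⌊x / w⌋) ⁻¹' {m} := rfl
  rw [this]
  exact (Int.measurable_floor.comp (measurable_id.div_const w)) (measurableSet_singleton m)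

lemma floor_mem {w x : ℝ} (hw : 0 < w) (hx : |x| ≤ 1) :
    ⌊x / w⌋ ∈ Finset.Icc (-(⌈1 / w⌉₊ : ℤ)) (⌈1 / w⌉₊ : ℤ) := by
  rw [abs_le] at hx
  have h1 : 1 / w ≤ (⌈1 / w⌉₊ : ℝ) := Nat.le_ceil _
  have h2 : x / w ≤ 1 / w := div_le_div_of_nonneg_right hx.2 hw.le
  have h3 : -(1 / w) ≤ x / w := by
    rw [← neg_div]; exact div_le_div_of_nonneg_right hx.1 hw.le
  rw [Finset.mem_Icc]
  constructor
  · rw [Int.le_floor]; push_cast; linarith
  · have : (⌊x / w⌋ : ℝ) ≤ x / w := Int.floor_le _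
    have h4 : (⌊x / w⌋ : ℝ) ≤ (⌈1 / w⌉₊ : ℝ) := by linarith
    exact_mod_cast h4

lemma q_sum (hf : Measurable f) (p : ℝ) (t : ℕ) {w : ℝ} (hw : 0 < w) (S : Finset (Fin n)) :
    ∑ m ∈ Finset.Icc (-(⌈1 / w⌉₊ : ℤ)) (⌈1 / w⌉₊ : ℤ), q f p t (Iw w m) S = 1 := by
  classical
  unfold q
  have hdisj : ∀ m ∈ Finset.Icc (-(⌈1 / w⌉₊ : ℤ)) (⌈1 / w⌉₊ : ℤ),
      ∀ m' ∈ Finset.Icc (-(⌈1 / w⌉₊ : ℤ)) (⌈1 / w⌉₊ : ℤ), m ≠ m' →
      Disjoint {ω : Om n | X f p t S ω ∈ Iw w m} {ω | X f p t S ω ∈ Iw w m'} := by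
    intro m _ m' _ hne
    rw [Set.disjoint_left]
    intro ω h1 h2
    simp only [Iw, Set.mem_ofPred_eq] at h1 h2
    exact hne (h1.symm.trans h2)
  rw [← measureReal_biUnion_finset hdisj (fun m _ => (measurable_X hf p t S) (measurable_Iw w m))]
  have : (⋃ m ∈ Finset.Icc (-(⌈1 / w⌉₊ : ℤ)) (⌈1 / w⌉₊ : ℤ), {ω : Om n | X f p t S ω ∈ Iw w m}) = Set.univ := by
    rw [Set.eq_univ_iff_forall]
    intro ω
    rw [Set.mem_iUnion₂]
    exact ⟨_, floor_mem hw (X_abs_le p t S ω), rfl⟩
  rw [this]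
  simp

lemma q_nonneg (p : ℝ) (t : ℕ) (I : Set ℝ) (S : Finset (Fin n)) : 0 ≤ q f p t I S :=
  measureReal_nonneg

/-- Two independent parts fall in the same window with substantial probability. -/
lemma same_window (hf : Measurable f) (p : ℝ) (t : ℕ) {w : ℝ} (hw : 0 < w) {S S' : Finset (Fin n)}
    (hSS : Disjoint S S') {η : ℝ}
    (hη : ∀ m, |q f p t (Iw w m) S' - q f p t (Iw w m) S| ≤ η) :
    1 / (2 * ⌈1 / w⌉₊ + 1) - η ≤ (volume : Measure (Om n)).real
      {ω | |X f p t S ω - X f p t S' ω| < w} := by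
  classical
  set M := Finset.Icc (-(⌈1 / w⌉₊ : ℤ)) (⌈1 / w⌉₊ : ℤ) with hM
  have hMcard : (M.card : ℝ) = 2 * ⌈1 / w⌉₊ + 1 := by
    rw [hM, Int.card_Icc]
    have : ((⌈1 / w⌉₊ : ℤ) + 1 - -(⌈1 / w⌉₊ : ℤ)).toNat = 2 * ⌈1 / w⌉₊ + 1 := by omega
    rw [this]; push_cast; ring
  have hMpos : (0 : ℝ) < M.card := by rw [hMcard]; positivity
  set E : ℤ → Set (Om n) := fun m => {ω | X f p t S ω ∈ Iw w m} ∩ {ω | X f p t S' ω ∈ Iw w m} with hE
  have hEm : ∀ m, MeasurableSet (E m) := fun m =>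
    ((measurable_X hf p t S) (measurable_Iw w m)).inter ((measurable_X hf p t S') (measurable_Iw w m))
  have hprod : ∀ m, (volume : Measure (Om n)).real (E m) = q f p t (Iw w m) S * q f p t (Iw w m) S' := by
    intro m
    apply indep_real (disjoint_D hSS) ((measurable_X hf p t S) (measurable_Iw w m))
      ((measurable_X hf p t S') (measurable_Iw w m))
    · intro ω ω' h
      have := dependsOn_X (f := f) p t S h
      show (X f p t S ω ∈ Iw w m) = (X f p t S ω' ∈ Iw w m)
      rw [this]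
    · intro ω ω' h
      have := dependsOn_X (f := f) p t S' h
      show (X f p t S' ω ∈ Iw w m) = (X f p t S' ω' ∈ Iw w m)
      rw [this]
  have hdisj : ∀ m ∈ M, ∀ m' ∈ M, m ≠ m' → Disjoint (E m) (E m') := by
    intro m _ m' _ hne
    rw [Set.disjoint_left]
    rintro ω ⟨h1, _⟩ ⟨h2, _⟩
    simp only [Iw, Set.mem_ofPred_eq] at h1 h2
    exact hne (h1.symm.trans h2)
  have hsub : (⋃ m ∈ M, E m) ⊆ {ω | |X f p t S ω - X f p t S' ω| < w} := by
    intro ω hω
    rw [Set.mem_iUnion₂] at hω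
    obtain ⟨m, _, h1, h2⟩ := hω
    simp only [Iw, Set.mem_ofPred_eq] at h1 h2 ⊢
    have h3 := Int.floor_le (X f p t S ω / w)
    have h4 := Int.lt_floor_add_one (X f p t S ω / w)
    have h5 := Int.floor_le (X f p t S' ω / w)
    have h6 := Int.lt_floor_add_one (X f p t S' ω / w)
    rw [h1] at h3 h4
    rw [h2] at h5 h6
    have h7 : |X f p t S ω / w - X f p t S' ω / w| < 1 := by
      rw [abs_lt]; constructor <;> linarith
    rw [← sub_div, abs_div, abs_of_pos hw, div_lt_one hw] at h7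
    exact h7
  have h1 : ∑ m ∈ M, q f p t (Iw w m) S * q f p t (Iw w m) S'
      ≤ (volume : Measure (Om n)).real {ω | |X f p t S ω - X f p t S' ω| < w} := by
    calc _ = ∑ m ∈ M, (volume : Measure (Om n)).real (E m) := by
          apply sum_congr rfl; intro m _; rw [hprod]
      _ = (volume : Measure (Om n)).real (⋃ m ∈ M, E m) :=
          (measureReal_biUnion_finset hdisj (fun m _ => hEm m)).symm
      _ ≤ _ := measureReal_mono hsub
  refine le_trans ?_ h1
  have hs1 : ∑ m ∈ M, q f p t (Iw w m) S = 1 := q_sum hf p t hw S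
  have h2 : ∑ m ∈ M, q f p t (Iw w m) S * (q f p t (Iw w m) S - η)
      ≤ ∑ m ∈ M, q f p t (Iw w m) S * q f p t (Iw w m) S' := by
    apply sum_le_sum
    intro m _
    apply mul_le_mul_of_nonneg_left _ (q_nonneg p t _ S)
    have := (abs_le.1 (hη m)).1
    linarith
  refine le_trans ?_ h2
  have h3 : ∑ m ∈ M, q f p t (Iw w m) S * (q f p t (Iw w m) S - η)
      = ∑ m ∈ M, (q f p t (Iw w m) S) ^ 2 - η := by
    simp_rw [mul_sub]
    rw [sum_sub_distrib, ← sum_mul, hs1, one_mul]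
    congr 1
    apply sum_congr rfl
    intro m _
    rw [sq]
  rw [h3]
  have h4 := sq_sum_le_card_mul_sum_sq (s := M) (f := fun m => q f p t (Iw w m) S)
  rw [hs1] at h4
  have h5 : 1 / (2 * (⌈1 / w⌉₊ : ℝ) + 1) ≤ ∑ m ∈ M, (q f p t (Iw w m) S) ^ 2 := by
    rw [← hMcard, div_le_iff₀ hMpos]
    linarith
  linarith

/-- Chain of one-vertex comparisons. -/
lemma q_chain (hf : Measurable f) {p : ℝ} (t : ℕ) (I : Set ℝ) {δ : ℝ} {k0 : ℕ}
    (hstep : ∀ S T : Finset (Fin n), T.card = S.card + 1 → k0 ≤ S.card →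
      |q f p t I T - q f p t I S| ≤ δ) (d : ℕ) :
    ∀ S S' : Finset (Fin n), S'.card = S.card + d → k0 ≤ S.card → (hI : MeasurableSet I) →
      |q f p t I S' - q f p t I S| ≤ d * δ := by
  classical
  induction d with
  | zero =>
    intro S S' h hk hI
    rw [q_card hf p t I hI (show S'.card = S.card by omega)]
    simp
  | succ d ih =>
    intro S S' h hk hI
    have hne : S'.Nonempty := by rw [← card_pos]; omega
    obtain ⟨v, hv⟩ := hne
    have hc : (S'.erase v).card = S.card + d := by rw [card_erase_of_mem hv]; omega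
    have h1 := ih S (S'.erase v) hc hk hI
    have h2 := hstep (S'.erase v) S' (by rw [hc]; omega) (by omega)
    have h3 : |q f p t I S' - q f p t I S| ≤ |q f p t I S' - q f p t I (S'.erase v)|
        + |q f p t I (S'.erase v) - q f p t I S| := abs_sub_le _ _ _
    push_cast
    linarith

lemma q_close (hf : Measurable f) {a : ℝ} (ha : 0 ≤ a) (hn : 4 * a ≤ n) (hn4 : 4 ≤ n) (t : ℕ)
    (I : Set ℝ) (hI : MeasurableSet I) {L : ℕ} (hL : 2 * L ≤ n) {S S' : Finset (Fin n)}
    (hSn : S.card + S'.card = n) (h1 : |(n : ℤ) - 2 * S.card| ≤ L) :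
    |q f (a / n) t I S' - q f (a / n) t I S| ≤ L * Real.sqrt ((4 * Real.exp (2 * a) + 2 * a) / n) := by
  classical
  have hnr : (4 : ℝ) ≤ n := by exact_mod_cast hn4
  have hnpos : (0 : ℝ) < n := by linarith
  set p := a / n with hp
  have hp0 : 0 ≤ p := by positivity
  have hp1 : p ≤ 1 / 4 := by
    rw [hp, div_le_iff₀ hnpos]; linarith
  have h1p : 0 < 1 - p := by linarith
  set δ := Real.sqrt ((4 * Real.exp (2 * a) + 2 * a) / n) with hδ
  have hδpos : 0 < δ := by rw [hδ]; positivity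
  have hδ2 : δ ^ 2 = (4 * Real.exp (2 * a) + 2 * a) / n := Real.sq_sqrt (by positivity)
  have hpow : Real.exp (-(2 * a)) ≤ (1 - p) ^ n := by
    have e1 : Real.exp (-(2 * p)) ≤ 1 - p := by
      have h2 : p / (1 - p) ≤ 2 * p := by
        rw [div_le_iff₀ h1p]; nlinarith
      have h3 : Real.exp (-(p / (1 - p))) ≤ 1 - p := by
        rw [Real.exp_neg, inv_le_comm₀ (Real.exp_pos _) h1p]
        have h4 := Real.add_one_le_exp (p / (1 - p))
        have h5 : (1 - p)⁻¹ = p / (1 - p) + 1 := by field_simp; ring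
        linarith
      refine le_trans (Real.exp_le_exp.2 ?_) h3
      linarith
    calc Real.exp (-(2 * a)) = Real.exp (-(2 * p)) ^ n := by
          rw [← Real.exp_nat_mul]; congr 1; rw [hp]; field_simp
      _ ≤ (1 - p) ^ n := pow_le_pow_left₀ (Real.exp_pos _).le e1 n
  have hstep : ∀ S T : Finset (Fin n), T.card = S.card + 1 → (n + 3) / 4 ≤ S.card →
      |q f p t I T - q f p t I S| ≤ δ := by
    intro S T hTS hS
    apply q_smooth hf hp0 (by linarith) t I hI hTS (by omega) hδpos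
    rw [hδ2]
    have hT4 : (n : ℝ) / 4 ≤ T.card := by
      have : n ≤ 4 * T.card := by omega
      have h2 : (n : ℝ) ≤ 4 * T.card := by exact_mod_cast this
      linarith
    have h2 : Real.exp (-(2 * a)) ≤ (1 - p) ^ (T.card - 1) := by
      refine le_trans hpow ?_
      apply pow_le_pow_of_le_one h1p.le (by linarith)
      have : T.card ≤ n := by
        have := card_le_univ T
        simpa using this
      omega
    have h3 : n / 4 * Real.exp (-(2 * a)) ≤ T.card * (1 - p) ^ (T.card - 1) :=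
      mul_le_mul hT4 h2 (Real.exp_pos _).le (Nat.cast_nonneg _)
    have h4 : 1 / (T.card * (1 - p) ^ (T.card - 1)) ≤ 4 * Real.exp (2 * a) / n := by
      calc 1 / (T.card * (1 - p) ^ (T.card - 1)) ≤ 1 / (n / 4 * Real.exp (-(2 * a))) :=
            one_div_le_one_div_of_le (by positivity) h3
        _ = 4 * Real.exp (2 * a) / n := by
            rw [Real.exp_neg]; field_simp
    have h5 : p / (1 - p) ≤ 2 * a / n := by
      have h6 : p / (1 - p) ≤ 2 * p := by
        rw [div_le_iff₀ h1p]; nlinarith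
      have h7 : 2 * p = 2 * a / n := by rw [hp]; ring
      linarith
    rw [add_div]
    linarith
  have hk1 : (n + 3) / 4 ≤ S.card := by
    rw [abs_le] at h1; omega
  have hk2 : (n + 3) / 4 ≤ S'.card := by
    rw [abs_le] at h1; omega
  rcases le_total S.card S'.card with h | h
  · obtain ⟨d, hd⟩ := Nat.exists_eq_add_of_le h
    have h2 := q_chain hf t I hstep d S S' hd hk1 hI
    have h3 : d ≤ L := by rw [abs_le] at h1; omega
    have h4 : (d : ℝ) ≤ L := by exact_mod_cast h3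
    exact le_trans h2 (mul_le_mul_of_nonneg_right h4 hδpos.le)
  · obtain ⟨d, hd⟩ := Nat.exists_eq_add_of_le h
    have h2 := q_chain hf t I hstep d S' S hd hk2 hI
    rw [abs_sub_comm] at h2
    have h3 : d ≤ L := by rw [abs_le] at h1; omega
    have h4 : (d : ℝ) ≤ L := by exact_mod_cast h3
    exact le_trans h2 (mul_le_mul_of_nonneg_right h4 hδpos.le)

lemma measurable_overlap (a b : ℝ) (t : ℕ) (σ : Fin n → Bool) : Measurable (overlap a b t σ) := by
  unfold overlap
  apply Measurable.div_const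
  apply Finset.measurable_fun_sum
  intro i _
  exact (measurable_est (measurable_fBP _) (measurable_adj a b σ) measurable_init measurable_coin t i).mul_const _

/-- Conditional on labels with nearly balanced sizes the overlap is small with positive
probability. -/
lemma good_label {a ε : ℝ} (ha : 0 ≤ a) (hε : 0 < ε) (hn : 4 * a ≤ n) (hn4 : 4 ≤ n) (t : ℕ)
    {L : ℕ} (hL : 2 * L ≤ n) (σ : Fin n → Bool) (h1 : |(n : ℤ) - 2 * (Sp σ).card| ≤ L) :
    (volume : Measure (Om n)).real {ω | ε ≤ |overlap a 0 t σ ω|}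
      ≤ 1 - (1 / (2 * ⌈1 / (ε / 2)⌉₊ + 1) - L * Real.sqrt ((4 * Real.exp (2 * a) + 2 * a) / n)
        - 1 / (n * (ε / 2) ^ 2)) := by
  set f := fBP ((a - 0) / (a + 0)) with hf
  have hfm : Measurable f := measurable_fBP _
  have h2 := same_window (n := n) hfm (a / n) t (w := ε / 2) (by positivity) (disj_Sp_Sm σ)
    (η := L * Real.sqrt ((4 * Real.exp (2 * a) + 2 * a) / n))
    (fun m => q_close hfm ha hn hn4 t (Iw (ε / 2) m) (measurable_Iw _ m) hL (card_Sp_Sm σ) h1)
  have h3 := Nz_tail (n := n) a 0 σ (by omega) (η := ε / 2) (by positivity)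
  set E1 : Set (Om n) := {ω | |X f (a / n) t (Sp σ) ω - X f (a / n) t (Sm σ) ω| < ε / 2} with hE1
  set E2 : Set (Om n) := {ω | ε / 2 ≤ |Nz a 0 σ ω|} with hE2
  have hE1m : MeasurableSet E1 :=
    measurableSet_lt ((measurable_X hfm _ t _).sub (measurable_X hfm _ t _)).abs measurable_const
  have hsub : {ω : Om n | ε ≤ |overlap a 0 t σ ω|} ⊆ E1ᶜ ∪ E2 := by
    intro ω hω
    by_contra hcon
    simp only [Set.mem_union, Set.mem_compl_iff, not_or, not_not, hE1, hE2, Set.mem_ofPred_eq,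
      not_le] at hcon hω
    rw [overlap_eq, ← hf] at hω
    have := abs_add_le (X f (a / n) t (Sp σ) ω - X f (a / n) t (Sm σ) ω) (Nz a 0 σ ω)
    linarith [hcon.1, hcon.2]
  have h4 : (volume : Measure (Om n)).real {ω : Om n | ε ≤ |overlap a 0 t σ ω|}
      ≤ (volume : Measure (Om n)).real E1ᶜ + (volume : Measure (Om n)).real E2 :=
    le_trans (measureReal_mono hsub) (measureReal_union_le _ _)
  have h5 : (volume : Measure (Om n)).real E1ᶜ = 1 - (volume : Measure (Om n)).real E1 :=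
    probReal_compl_eq_one_sub hE1m
  linarith

/-- Counting labellings by the size of the `+` class. -/
lemma count_labels (P : ℕ → Prop) [DecidablePred P] :
    ((univ.filter (fun σ : Fin n → Bool => P (Sp σ).card)).card : ℝ)
      = ∑ k ∈ (range (n + 1)).filter P, (n.choose k : ℝ) := by
  classical
  have h1 : (univ.filter (fun σ : Fin n → Bool => P (Sp σ).card)).card
      = ∑ σ : Fin n → Bool, (if P (Sp σ).card then 1 else 0) := by
    rw [card_filter]
  have h2 : ∑ σ : Fin n → Bool, (if P (Sp σ).card then 1 else 0)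
      = ∑ S ∈ (univ : Finset (Fin n)).powerset, (if P S.card then 1 else 0) := by
    apply sum_bij' (i := fun σ _ => Sp σ) (j := fun S _ => fun i => decide (i ∈ S))
    · intro σ _; simp
    · intro S _; simp
    · intro σ _; funext i; simp [Sp]
    · intro S _; ext i; simp [Sp]
    · intro σ _; rfl
  rw [h1, h2, sum_powerset_apply_card (fun k => if P k then 1 else 0)]
  push_cast
  simp only [card_univ, Fintype.card_fin]
  rw [sum_filter]
  apply sum_congr rfl
  intro k _
  simp only [nsmul_eq_mul]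
  split_ifs <;> simp

/-- Main estimate: for `b = 0` the success probability stays away from one, uniformly in the
number of rounds. -/
theorem bp_fails {a : ℝ} (ha : 0 ≤ a) {ε : ℝ} (hε : 0 < ε) :
    ∃ c : ℝ, 0 < c ∧ ∃ N : ℕ, ∀ n : ℕ, N ≤ n → ∀ t : ℕ, succProb n t a 0 ε ≤ 1 - c := by
  classical
  set K : ℝ := 2 * ⌈1 / (ε / 2)⌉₊ + 1 with hK
  have hKpos : 0 < K := by positivity
  have hK1 : 1 ≤ K := by
    rw [hK]
    have : (0 : ℝ) ≤ ⌈1 / (ε / 2)⌉₊ := Nat.cast_nonneg _
    linarith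
  set C : ℝ := Real.sqrt (4 * Real.exp (2 * a) + 2 * a) with hC
  have hC1 : 1 ≤ C := by
    rw [hC]
    apply Real.one_le_sqrt.2
    have := Real.add_one_le_exp (2 * a)
    linarith
  have hCpos : 0 < C := by linarith
  set κ : ℝ := 1 / (4 * K * C) with hκ
  have hκpos : 0 < κ := by positivity
  have hκ1 : κ ≤ 1 / 4 := by
    rw [hκ]
    apply one_div_le_one_div_of_le (by norm_num)
    nlinarith
  refine ⟨κ / 32 * (1 / K), by positivity, ?_⟩
  -- thresholds
  obtain ⟨N1, hN1⟩ := exists_nat_ge (4 * a)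
  obtain ⟨N2, hN2⟩ := exists_nat_ge ((2 / κ) ^ 2)
  obtain ⟨N3, hN3⟩ := exists_nat_ge (4 * K / (ε / 2) ^ 2)
  refine ⟨max (max N1 N2) (max N3 4), fun n hn t => ?_⟩
  have hnN1 : (N1 : ℝ) ≤ n := by
    exact_mod_cast le_trans (le_trans (le_max_left _ _) (le_max_left _ _)) hn
  have hnN2 : (N2 : ℝ) ≤ n := by
    exact_mod_cast le_trans (le_trans (le_max_right _ _) (le_max_left _ _)) hn
  have hnN3 : (N3 : ℝ) ≤ n := by
    exact_mod_cast le_trans (le_trans (le_max_left _ _) (le_max_right _ _)) hn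
  have hn4 : 4 ≤ n := le_trans (le_trans (le_max_right _ _) (le_max_right _ _)) hn
  have hnr : (4 : ℝ) ≤ n := by exact_mod_cast hn4
  have hnpos : (0 : ℝ) < n := by linarith
  set s := Real.sqrt n with hs
  have hs2 : s ^ 2 = n := Real.sq_sqrt hnpos.le
  have hspos : 0 < s := Real.sqrt_pos.2 hnpos
  have hs2κ : 2 / κ ≤ s := by
    apply Real.le_sqrt_of_sq_le
    linarith
  have hs2' : 2 ≤ s := by
    apply Real.le_sqrt_of_sq_le
    linarith
  set L := ⌊κ * s⌋₊ with hL
  have hLle : (L : ℝ) ≤ κ * s := Nat.floor_le (by positivity)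
  have hκs : 2 ≤ κ * s := by
    rw [div_le_iff₀ hκpos] at hs2κ
    linarith
  have hLge : κ * s / 2 ≤ L := by
    have := Nat.lt_floor_add_one (κ * s)
    rw [← hL] at this
    linarith
  have hL1 : 1 ≤ L := by
    rw [hL]; apply Nat.le_floor; push_cast; linarith
  have hLs : (L : ℝ) ≤ s := by nlinarith
  have hL2 : L ^ 2 ≤ n := by
    have : (L : ℝ) ^ 2 ≤ n := by
      rw [← hs2]; exact pow_le_pow_left₀ (Nat.cast_nonneg _) hLs 2
    exact_mod_cast this
  have hL2n : 2 * L ≤ n := by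
    have : 2 * (L : ℝ) ≤ n := by
      rw [← hs2]; nlinarith
    exact_mod_cast this
  set good := univ.filter (fun σ : Fin n → Bool => |(n : ℤ) - 2 * (Sp σ).card| ≤ L) with hgood
  have hgood_card : κ / 16 * 2 ^ n ≤ (good.card : ℝ) := by
    rw [hgood, count_labels (n := n) (fun k : ℕ => |(n : ℤ) - 2 * k| ≤ L)]
    refine le_trans ?_ (central_window hL1 hL2)
    apply mul_le_mul_of_nonneg_right _ (by positivity)
    rw [← hs, le_div_iff₀ (by positivity)]
    linarith
  have hbound : ∀ σ ∈ good, (volume : Measure (Om n)).real {ω | ε ≤ |overlap a 0 t σ ω|} ≤ 1 - 1 / (2 * K) := by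
    intro σ hσ
    rw [hgood, mem_filter] at hσ
    refine le_trans (good_label ha hε (by linarith) hn4 t hL2n σ hσ.2) ?_
    have h1 : L * Real.sqrt ((4 * Real.exp (2 * a) + 2 * a) / n) ≤ 1 / (4 * K) := by
      rw [Real.sqrt_div (by positivity), ← hC, ← hs]
      calc L * (C / s) ≤ κ * s * (C / s) := mul_le_mul_of_nonneg_right hLle (by positivity)
        _ = κ * C := by field_simp
        _ = 1 / (4 * K) := by rw [hκ]; field_simp
    have h2 : 1 / (n * (ε / 2) ^ 2) ≤ 1 / (4 * K) := by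
      apply one_div_le_one_div_of_le (by positivity)
      have h3 : 4 * K / (ε / 2) ^ 2 ≤ n := by linarith
      rw [div_le_iff₀ (by positivity)] at h3
      linarith
    have h3 : 1 / (4 * K) + 1 / (4 * K) = 1 / (2 * K) := by field_simp; norm_num
    have h4 : 1 / K = 1 / (2 * K) + 1 / (2 * K) := by field_simp; norm_num
    rw [← hK]
    linarith
  unfold succProb
  rw [div_le_iff₀ (by positivity)]
  have hsplit := sum_filter_add_sum_filter_not (univ : Finset (Fin n → Bool))
    (fun σ : Fin n → Bool => |(n : ℤ) - 2 * (Sp σ).card| ≤ L)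
    (fun σ => (volume : Measure (Om n)).real {ω | ε ≤ |overlap a 0 t σ ω|})
  rw [← hsplit, ← hgood]
  set bad := univ.filter (fun σ : Fin n → Bool => ¬ |(n : ℤ) - 2 * (Sp σ).card| ≤ L) with hbad
  have hcards : (good.card : ℝ) + bad.card = 2 ^ n := by
    have := card_filter_add_card_filter_not (s := (univ : Finset (Fin n → Bool)))
      (fun σ : Fin n → Bool => |(n : ℤ) - 2 * (Sp σ).card| ≤ L)
    rw [← hgood, ← hbad] at this
    simp only [card_univ, Fintype.card_pi, Fintype.card_bool, prod_const, Fintype.card_fin] at this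
    exact_mod_cast this
  have h1 : ∑ σ ∈ good, (volume : Measure (Om n)).real {ω | ε ≤ |overlap a 0 t σ ω|}
      ≤ good.card * (1 - 1 / (2 * K)) := by
    calc _ ≤ ∑ σ ∈ good, (1 - 1 / (2 * K)) := sum_le_sum hbound
      _ = _ := by rw [sum_const, nsmul_eq_mul]
  have h2 : ∑ σ ∈ bad, (volume : Measure (Om n)).real {ω | ε ≤ |overlap a 0 t σ ω|} ≤ bad.card := by
    calc _ ≤ ∑ σ ∈ bad, (1 : ℝ) := sum_le_sum (fun σ _ => measureReal_le_one)
      _ = _ := by simp
  have h3 : κ / 16 * 2 ^ n * (1 / (2 * K)) ≤ good.card * (1 / (2 * K)) :=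
    mul_le_mul_of_nonneg_right hgood_card (by positivity)
  have h4 : κ / 16 * 2 ^ n * (1 / (2 * K)) = κ / 32 * (1 / K) * 2 ^ n := by field_simp; ring
  nlinarith

end Pool.Agent.Helper87.BP
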