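import Mathlib

set_option autoImplicit false

namespace Pool.Agent.Helper87.BP

open MeasureTheory Finset

/-- One-dimensional Chebyshev association inequality. -/
lemma chebyshev_assoc {Ω : Type*} [MeasurableSpace Ω] (μ : Measure Ω) [IsProbabilityMeasure μ]
    {F G : Ω → ℝ} (hF : Measurable F) (hG : Measurable G) {B : ℝ} (hFB : ∀ x, |F x| ≤ B)
    (hGB : ∀ x, |G x| ≤ B) (h : ∀ x y, 0 ≤ (F x - F y) * (G x - G y)) :
    (∫ x, F x ∂μ) * (∫ x, G x ∂μ) ≤ ∫ x, F x * G x ∂μ := by
  have iF : Integrable F μ := Integrable.of_bound hF.aestronglyMeasurable B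
    (Filter.Eventually.of_forall (fun x => by rw [Real.norm_eq_abs]; exact hFB x))
  have iG : Integrable G μ := Integrable.of_bound hG.aestronglyMeasurable B
    (Filter.Eventually.of_forall (fun x => by rw [Real.norm_eq_abs]; exact hGB x))
  have iFG : Integrable (fun x => F x * G x) μ := by
    apply Integrable.of_bound (hF.mul hG).aestronglyMeasurable (B * B)
    refine Filter.Eventually.of_forall (fun x => ?_)
    rw [Real.norm_eq_abs, Pi.mul_apply, abs_mul]
    exact mul_le_mul (hFB x) (hGB x) (abs_nonneg _) (le_trans (abs_nonneg _) (hFB x))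
  have h1 : ∀ x, 0 ≤ F x * G x - F x * (∫ y, G y ∂μ) - G x * (∫ y, F y ∂μ) + ∫ y, F y * G y ∂μ := by
    intro x
    have h2 : 0 ≤ ∫ y, (F x - F y) * (G x - G y) ∂μ := integral_nonneg (fun y => h x y)
    have e : ∀ y, (F x - F y) * (G x - G y) = F x * G x - F x * G y - G x * F y + F y * G y := by
      intro y; ring
    simp_rw [e] at h2
    have i1 : Integrable (fun y => F x * G x - F x * G y) μ := (integrable_const _).sub (iG.const_mul _)
    have i2 : Integrable (fun y => F x * G x - F x * G y - G x * F y) μ := i1.sub (iF.const_mul _)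
    rw [integral_add i2 iFG, integral_sub i1 (iF.const_mul _), integral_sub (integrable_const _) (iG.const_mul _)] at h2
    have e2 : ∫ _y : Ω, F x * G x ∂μ = F x * G x := by simp
    rw [e2, integral_const_mul, integral_const_mul] at h2
    exact h2
  have h3 : 0 ≤ ∫ x, (F x * G x - F x * (∫ y, G y ∂μ) - G x * (∫ y, F y ∂μ) + ∫ y, F y * G y ∂μ) ∂μ :=
    integral_nonneg h1
  have i1 : Integrable (fun x => F x * G x - F x * (∫ y, G y ∂μ)) μ := iFG.sub (iF.mul_const _)
  have i2 : Integrable (fun x => F x * G x - F x * (∫ y, G y ∂μ) - G x * (∫ y, F y ∂μ)) μ :=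
    i1.sub (iG.mul_const _)
  rw [integral_add i2 (integrable_const _), integral_sub i1 (iG.mul_const _), integral_sub iFG (iF.mul_const _),
    integral_mul_const, integral_mul_const] at h3
  have e2 : ∫ _x : Ω, (∫ y, F y * G y ∂μ) ∂μ = ∫ y, F y * G y ∂μ := by simp
  rw [e2] at h3
  linarith

/-- Two functions vary in the same direction in coordinate `i`. -/
def Comon {ι : Type*} [DecidableEq ι] {X : Type*} (f g : (ι → X) → ℝ) (i : ι) : Prop :=
  ∀ (ω ω' : ι → X) (x y : X), 0 ≤ (f (Function.update ω i x) - f (Function.update ω i y)) *
    (g (Function.update ω' i x) - g (Function.update ω' i y))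

variable {X : Type*} [MeasureSpace X] [IsProbabilityMeasure (volume : Measure X)]

/-- Harris inequality on a finite product. -/
lemma harris_fin (m : ℕ) : ∀ (f g : (Fin m → X) → ℝ), Measurable f → Measurable g →
    ∀ B : ℝ, (∀ x, |f x| ≤ B) → (∀ x, |g x| ≤ B) → (∀ i, Comon f g i) →
    (∫ x, f x) * (∫ x, g x) ≤ ∫ x, f x * g x := by
  induction m with
  | zero =>
    intro f g hf hg B hfB hgB _
    have e : ∀ h : (Fin 0 → X) → ℝ, ∫ x, h x = h default := by
      intro h
      rw [integral_unique]
      simp
    rw [e, e, e]
  | succ m ih =>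
    intro f g hf hg B hfB hgB hc
    have mp := volume_preserving_piFinSuccAbove (fun _ : Fin (m + 1) => X) 0
    have key : ∀ h : (Fin (m + 1) → X) → ℝ, Measurable h → (∀ B : ℝ, (∀ x, |h x| ≤ B) →
        ∫ x, h x = ∫ x : X, ∫ r : Fin m → X, h (Fin.cons x r)) := by
      intro h hh B hB
      have e1 : ∫ x, h x = ∫ z : X × (Fin m → X), h (Fin.cons z.1 z.2) := by
        rw [← mp.integral_comp (MeasurableEquiv.measurableEmbedding _)]
        congr 1
        funext x
        congr 1
        funext i
        refine Fin.cases ?_ (fun j => ?_) i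
        · simp [MeasurableEquiv.piFinSuccAbove]
        · simp [MeasurableEquiv.piFinSuccAbove, Fin.tail]
      rw [e1, Measure.volume_eq_prod]
      have hm : Measurable (fun z : X × (Fin m → X) => h (Fin.cons z.1 z.2)) := by
        apply hh.comp
        rw [measurable_pi_iff]
        intro i
        refine Fin.cases ?_ (fun j => ?_) i
        · simp only [Fin.cons_zero]; exact measurable_fst
        · simp only [Fin.cons_succ]; exact (measurable_pi_apply j).comp measurable_snd
      rw [integral_prod (fun z : X × (Fin m → X) => h (Fin.cons z.1 z.2))]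
      apply Integrable.of_bound hm.aestronglyMeasurable B
      exact Filter.Eventually.of_forall (fun x => by rw [Real.norm_eq_abs]; exact hB _)
    have hcons : ∀ x : X, Measurable (fun r : Fin m → X => (Fin.cons x r : Fin (m + 1) → X)) := by
      intro x
      rw [measurable_pi_iff]
      intro i
      refine Fin.cases ?_ (fun j => ?_) i
      · simp only [Fin.cons_zero]; exact measurable_const
      · simp only [Fin.cons_succ]; exact measurable_pi_apply j
    have hcons2 : Measurable (fun z : X × (Fin m → X) => (Fin.cons z.1 z.2 : Fin (m + 1) → X)) := by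
      rw [measurable_pi_iff]
      intro i
      refine Fin.cases ?_ (fun j => ?_) i
      · simp only [Fin.cons_zero]; exact measurable_fst
      · simp only [Fin.cons_succ]; exact (measurable_pi_apply j).comp measurable_snd
    set F : X → ℝ := fun x => ∫ r : Fin m → X, f (Fin.cons x r) with hF
    set G : X → ℝ := fun x => ∫ r : Fin m → X, g (Fin.cons x r) with hG
    have hFm : Measurable F := by
      have : StronglyMeasurable (fun z : X × (Fin m → X) => f (Fin.cons z.1 z.2)) :=
        (hf.comp hcons2).stronglyMeasurable
      exact this.integral_prod_right.measurable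
    have hGm : Measurable G := by
      have : StronglyMeasurable (fun z : X × (Fin m → X) => g (Fin.cons z.1 z.2)) :=
        (hg.comp hcons2).stronglyMeasurable
      exact this.integral_prod_right.measurable
    have ifx : ∀ x, Integrable (fun r : Fin m → X => f (Fin.cons x r)) := fun x =>
      Integrable.of_bound (hf.comp (hcons x)).aestronglyMeasurable B
        (Filter.Eventually.of_forall (fun r => by rw [Real.norm_eq_abs]; exact hfB _))
    have igx : ∀ x, Integrable (fun r : Fin m → X => g (Fin.cons x r)) := fun x =>
      Integrable.of_bound (hg.comp (hcons x)).aestronglyMeasurable B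
        (Filter.Eventually.of_forall (fun r => by rw [Real.norm_eq_abs]; exact hgB _))
    have hFB : ∀ x, |F x| ≤ B := by
      intro x
      calc |F x| ≤ ∫ r : Fin m → X, |f (Fin.cons x r)| := abs_integral_le_integral_abs
        _ ≤ ∫ r : Fin m → X, B := integral_mono (ifx x).abs (integrable_const _) (fun r => hfB _)
        _ = B := by simp
    have hGB : ∀ x, |G x| ≤ B := by
      intro x
      calc |G x| ≤ ∫ r : Fin m → X, |g (Fin.cons x r)| := abs_integral_le_integral_abs
        _ ≤ ∫ r : Fin m → X, B := integral_mono (igx x).abs (integrable_const _) (fun r => hgB _)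
        _ = B := by simp
    have hupd0 : ∀ (x z : X) (r : Fin m → X), (Fin.cons x r : Fin (m + 1) → X)
        = Function.update (Fin.cons z r : Fin (m + 1) → X) 0 x := by
      intro x z r
      rw [Fin.update_cons_zero]
    have hco : ∀ x y, 0 ≤ (F x - F y) * (G x - G y) := by
      intro x y
      have e1 : F x - F y = ∫ r : Fin m → X, (f (Fin.cons x r) - f (Fin.cons y r)) :=
        (integral_sub (ifx x) (ifx y)).symm
      have e2 : G x - G y = ∫ r : Fin m → X, (g (Fin.cons x r) - g (Fin.cons y r)) :=
        (integral_sub (igx x) (igx y)).symm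
      rw [e1, ← integral_mul_const]
      apply integral_nonneg
      intro r
      simp only [Pi.zero_apply]
      rw [e2, ← integral_const_mul]
      apply integral_nonneg
      intro r'
      simp only [Pi.zero_apply]
      have := hc 0 (Fin.cons x r) (Fin.cons x r') x y
      rw [← hupd0, ← hupd0, ← hupd0, ← hupd0] at this
      exact this
    have hIH : ∀ x, F x * G x ≤ ∫ r : Fin m → X, f (Fin.cons x r) * g (Fin.cons x r) := by
      intro x
      apply ih (fun r => f (Fin.cons x r)) (fun r => g (Fin.cons x r)) (hf.comp (hcons x))
        (hg.comp (hcons x)) B (fun r => hfB _) (fun r => hgB _)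
      intro i ω ω' a b
      have := hc i.succ (Fin.cons x ω) (Fin.cons x ω') a b
      simp only [← Fin.cons_update] at this
      exact this
    have ifg : Measurable (fun z => f z * g z) := hf.mul hg
    rw [key f hf B hfB, key g hg B hgB, key (fun z => f z * g z) ifg (B * B) (by
      intro z
      rw [abs_mul]
      exact mul_le_mul (hfB z) (hgB z) (abs_nonneg _) (le_trans (abs_nonneg _) (hfB z)))]
    refine le_trans (chebyshev_assoc volume hFm hGm hFB hGB hco) ?_
    apply integral_mono
    · apply Integrable.of_bound (hFm.mul hGm).aestronglyMeasurable (B * B)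
      refine Filter.Eventually.of_forall (fun x => ?_)
      rw [Real.norm_eq_abs, Pi.mul_apply, abs_mul]
      exact mul_le_mul (hFB x) (hGB x) (abs_nonneg _) (le_trans (abs_nonneg _) (hFB x))
    · have hm : Measurable (fun x : X => ∫ r : Fin m → X, f (Fin.cons x r) * g (Fin.cons x r)) := by
        have : StronglyMeasurable (fun z : X × (Fin m → X) => f (Fin.cons z.1 z.2) * g (Fin.cons z.1 z.2)) :=
          ((hf.comp hcons2).mul (hg.comp hcons2)).stronglyMeasurable
        exact this.integral_prod_right.measurable
      apply Integrable.of_bound hm.aestronglyMeasurable (B * B)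
      refine Filter.Eventually.of_forall (fun x => ?_)
      rw [Real.norm_eq_abs]
      have hb : ∀ r : Fin m → X, |f (Fin.cons x r) * g (Fin.cons x r)| ≤ B * B := by
        intro r
        rw [abs_mul]
        exact mul_le_mul (hfB _) (hgB _) (abs_nonneg _) (le_trans (abs_nonneg _) (hfB (Fin.cons x r)))
      calc |∫ r : Fin m → X, f (Fin.cons x r) * g (Fin.cons x r)|
          ≤ ∫ r : Fin m → X, |f (Fin.cons x r) * g (Fin.cons x r)| := abs_integral_le_integral_abs
        _ ≤ ∫ r : Fin m → X, B * B := by
            apply integral_mono _ (integrable_const _) hb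
            apply Integrable.of_bound (((hf.comp (hcons x)).mul (hg.comp (hcons x))).norm).aestronglyMeasurable (B * B)
            refine Filter.Eventually.of_forall (fun r => ?_)
            simp only [Pi.mul_apply, Function.comp_apply, norm_norm]
            rw [Real.norm_eq_abs]
            exact hb r
        _ = B * B := by simp
    · exact hIH

/-- Harris inequality on a finite product with arbitrary index type. -/
lemma harris {ι : Type*} [Fintype ι] [DecidableEq ι] (f g : (ι → X) → ℝ) (hf : Measurable f)
    (hg : Measurable g) (B : ℝ) (hfB : ∀ x, |f x| ≤ B) (hgB : ∀ x, |g x| ≤ B)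
    (hc : ∀ i, Comon f g i) : (∫ x, f x) * (∫ x, g x) ≤ ∫ x, f x * g x := by
  set e := Fintype.equivFin ι with he
  have mp := volume_measurePreserving_piCongrLeft (fun _ : ι => X) e.symm
  have key : ∀ h : (ι → X) → ℝ, ∫ x, h x
      = ∫ y : Fin (Fintype.card ι) → X, h (fun i => y (e i)) := by
    intro h
    rw [← mp.integral_comp (MeasurableEquiv.measurableEmbedding _)]
    congr 1
    funext y
    congr 1
    funext i
    obtain ⟨j, rfl⟩ := e.symm.surjective i
    rw [MeasurableEquiv.coe_piCongrLeft, Equiv.piCongrLeft_apply_apply]
    simp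
  rw [key f, key g, key (fun x => f x * g x)]
  have hm : Measurable (fun (y : Fin (Fintype.card ι) → X) (i : ι) => y (e i)) := by
    rw [measurable_pi_iff]; intro i; exact measurable_pi_apply _
  apply harris_fin _ (fun y => f (fun i => y (e i))) (fun y => g (fun i => y (e i))) (hf.comp hm)
    (hg.comp hm) B (fun y => hfB _) (fun y => hgB _)
  intro j ω ω' x y
  have hu : ∀ (w : Fin (Fintype.card ι) → X) (z : X),
      (fun i => Function.update w j z (e i)) = Function.update (fun i => w (e i)) (e.symm j) z := by
    intro w z
    funext i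
    by_cases h : e i = j
    · have : i = e.symm j := by rw [← h]; simp
      subst this
      simp
    · have : i ≠ e.symm j := by
        rintro rfl; simp at h
      rw [Function.update_of_ne h, Function.update_of_ne this]
  have := hc (e.symm j) (fun i => ω (e i)) (fun i => ω' (e i)) x y
  rw [← hu, ← hu, ← hu, ← hu] at this
  exact this

end Pool.Agent.Helper87.BP
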