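import Pool.Agent.Helper87.BP.Decomp
import Pool.Agent.Helper87.BP.Binom
import Pool.Agent.Helper87.BP.Fail
import Pool.Agent.Helper87.BP.Harris

set_option autoImplicit false

namespace Pool.Agent.Helper87.BP

open MeasureTheory Finset ProbabilityTheory

variable {n : ℕ} {f : ℝ → ℝ}

/-- The non-edge coordinates. -/
abbrev Rest (n : ℕ) := (Fin n × Fin n) ⊕ Fin n

/-- Initial messages from the non-edge coordinates. -/
def initR (r : Rest n → unitInterval) (i j : Fin n) : ℝ := 2 * (r (Sum.inl (i, j)) : ℝ) - 1

/-- Coins from the non-edge coordinates. -/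
noncomputable def coinR (r : Rest n → unitInterval) (i : Fin n) : ℝ :=
  if (r (Sum.inr i) : ℝ) < 1 / 2 then 1 else -1

lemma coinR_abs (r : Rest n → unitInterval) (i : Fin n) : |coinR r i| = 1 := by
  unfold coinR; split_ifs <;> simp

/-! Monotonicity of the dynamics. -/

lemma msg_mono (hf : Monotone f) (R : Fin n → Fin n → Prop) {h0 h0' : Fin n → Fin n → ℝ}
    (h : ∀ i j, h0 i j ≤ h0' i j) (t : ℕ) : ∀ i j, msg f R h0 t i j ≤ msg f R h0' t i j := by
  induction t with
  | zero => exact h
  | succ t ih =>
    intro i j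
    simp only [msg]
    exact sum_le_sum (fun k _ => hf (ih k i))

lemma msg_anti (hf : Antitone f) (R : Fin n → Fin n → Prop) {h0 h0' : Fin n → Fin n → ℝ}
    (h : ∀ i j, h0 i j ≤ h0' i j) (t : ℕ) :
    (Even t → ∀ i j, msg f R h0 t i j ≤ msg f R h0' t i j) ∧
    (Odd t → ∀ i j, msg f R h0' t i j ≤ msg f R h0 t i j) := by
  induction t with
  | zero =>
    refine ⟨fun _ => h, fun h => ?_⟩
    simp at h
  | succ t ih =>
    constructor
    · intro ht i j
      have ht' : Odd t := by
        rcases Nat.even_or_odd t with h1 | h1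
        · exact absurd ht (by rw [Nat.not_even_iff_odd]; exact h1.add_one)
        · exact h1
      simp only [msg]
      exact sum_le_sum (fun k _ => hf (ih.2 ht' k i))
    · intro ht i j
      have ht' : Even t := by
        rcases Nat.even_or_odd t with h1 | h1
        · exact h1
        · exact absurd ht (by rw [Nat.not_odd_iff_even]; exact h1.add_one)
      simp only [msg]
      exact sum_le_sum (fun k _ => hf (ih.1 ht' k i))

lemma field_dir (hf : Monotone f ∨ Antitone f) (R : Fin n → Fin n → Prop) (t : ℕ) :
    (∀ h0 h0' : Fin n → Fin n → ℝ, (∀ i j, h0 i j ≤ h0' i j) →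
      ∀ i, field f R h0 t i ≤ field f R h0' t i) ∨
    (∀ h0 h0' : Fin n → Fin n → ℝ, (∀ i j, h0 i j ≤ h0' i j) →
      ∀ i, field f R h0' t i ≤ field f R h0 t i) := by
  rcases hf with hf | hf
  · left
    intro h0 h0' h i
    unfold field
    exact sum_le_sum (fun k _ => hf (msg_mono hf R h t k i))
  · rcases Nat.even_or_odd t with ht | ht
    · right
      intro h0 h0' h i
      unfold field
      exact sum_le_sum (fun k _ => hf ((msg_anti hf R h t).1 ht k i))
    · left
      intro h0 h0' h i
      unfold field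
      exact sum_le_sum (fun k _ => hf ((msg_anti hf R h t).2 ht k i))

lemma tieSign_mono {x y c : ℝ} (hc : |c| ≤ 1) (h : x ≤ y) : tieSign x c ≤ tieSign y c := by
  rw [abs_le] at hc
  unfold tieSign
  split_ifs <;> linarith

lemma tieSign_mono_coin {x c c' : ℝ} (h : c ≤ c') : tieSign x c ≤ tieSign x c' := by
  unfold tieSign
  split_ifs <;> linarith

/-! Oddness. -/

lemma msg_neg (hf : ∀ x, f (-x) = -f x) (R : Fin n → Fin n → Prop) (h0 : Fin n → Fin n → ℝ) (t : ℕ) :
    ∀ i j, msg f R (fun i j => -h0 i j) t i j = -msg f R h0 t i j := by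
  induction t with
  | zero => intro i j; rfl
  | succ t ih =>
    intro i j
    simp only [msg]
    rw [← sum_neg_distrib]
    apply sum_congr rfl
    intro k _
    rw [ih, hf]

lemma field_neg (hf : ∀ x, f (-x) = -f x) (R : Fin n → Fin n → Prop) (h0 : Fin n → Fin n → ℝ) (t : ℕ)
    (i : Fin n) : field f R (fun i j => -h0 i j) t i = -field f R h0 t i := by
  unfold field
  rw [← sum_neg_distrib]
  apply sum_congr rfl
  intro k _
  rw [msg_neg hf, hf]

lemma tieSign_neg (x c : ℝ) : tieSign (-x) (-c) = -tieSign x c := by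
  unfold tieSign
  split_ifs <;> linarith

/-! The partial sums. -/

/-- Unnormalised sum of estimates over `S`. -/
noncomputable def US (f : ℝ → ℝ) (R : Fin n → Fin n → Prop) (t : ℕ) (S : Finset (Fin n))
    (r : Rest n → unitInterval) : ℝ := ∑ i ∈ S, est f R (initR r) (coinR r) t i

lemma measurable_coordR (i : Rest n) : Measurable (fun r : Rest n → unitInterval => (r i : ℝ)) :=
  measurable_subtype_coe.comp (measurable_pi_apply i)

lemma measurable_US (hf : Measurable f) (R : Fin n → Fin n → Prop) (t : ℕ) (S : Finset (Fin n)) :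
    Measurable (US f R t S) := by
  unfold US
  apply Finset.measurable_fun_sum
  intro i _
  apply measurable_est (R := fun _ => R) hf (fun i j => MeasurableSet.const _) _ _ t i
  · intro i j
    unfold initR
    have := measurable_coordR (n := n) (Sum.inl (i, j))
    fun_prop
  · intro i
    unfold coinR
    exact Measurable.ite (measurableSet_lt (measurable_coordR _) measurable_const) measurable_const
      measurable_const

lemma US_abs_le (R : Fin n → Fin n → Prop) (t : ℕ) (S : Finset (Fin n)) (r : Rest n → unitInterval) :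
    |US f R t S r| ≤ S.card := by
  unfold US
  calc |∑ i ∈ S, est f R (initR r) (coinR r) t i| ≤ ∑ i ∈ S, |est f R (initR r) (coinR r) t i| :=
        abs_sum_le_sum_abs _ _
    _ ≤ ∑ i ∈ S, (1 : ℝ) := sum_le_sum (fun i _ => est_abs_le (coinR_abs r i).le)
    _ = S.card := by simp

/-- In each coordinate all the partial sums move in the same direction. -/
lemma US_dir (hf : Monotone f ∨ Antitone f) (R : Fin n → Fin n → Prop) (t : ℕ) (i : Rest n) :
    (∀ (S : Finset (Fin n)) (r : Rest n → unitInterval) (x y : unitInterval), x ≤ y →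
      US f R t S (Function.update r i x) ≤ US f R t S (Function.update r i y)) ∨
    (∀ (S : Finset (Fin n)) (r : Rest n → unitInterval) (x y : unitInterval), x ≤ y →
      US f R t S (Function.update r i y) ≤ US f R t S (Function.update r i x)) := by
  rcases i with q | v
  · -- a message coordinate
    have hinit : ∀ (r : Rest n → unitInterval) (x y : unitInterval), x ≤ y → ∀ i j,
        initR (Function.update r (Sum.inl q) x) i j ≤ initR (Function.update r (Sum.inl q) y) i j := by
      intro r x y hxy i j
      unfold initR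
      by_cases h : (Sum.inl (i, j) : Rest n) = Sum.inl q
      · rw [h, Function.update_self, Function.update_self]
        have : (x : ℝ) ≤ y := hxy
        linarith
      · rw [Function.update_of_ne h, Function.update_of_ne h]
    have hcoin : ∀ (r : Rest n → unitInterval) (x : unitInterval) (j : Fin n),
        coinR (Function.update r (Sum.inl q) x) j = coinR r j := by
      intro r x j
      unfold coinR
      rw [Function.update_of_ne (by simp)]
    rcases field_dir hf R t with h | h
    · left
      intro S r x y hxy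
      unfold US
      apply sum_le_sum
      intro i _
      unfold est
      rw [hcoin, hcoin]
      exact tieSign_mono (coinR_abs r i).le (h _ _ (hinit r x y hxy) i)
    · right
      intro S r x y hxy
      unfold US
      apply sum_le_sum
      intro i _
      unfold est
      rw [hcoin, hcoin]
      exact tieSign_mono (coinR_abs r i).le (h _ _ (hinit r x y hxy) i)
  · -- a coin coordinate
    right
    intro S r x y hxy
    unfold US
    apply sum_le_sum
    intro i _
    unfold est
    have hinit : ∀ x : unitInterval, initR (Function.update r (Sum.inr v) x) = initR r := by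
      intro x
      funext i j
      unfold initR
      rw [Function.update_of_ne (by simp)]
    rw [hinit, hinit]
    apply tieSign_mono_coin
    unfold coinR
    by_cases h : (Sum.inr i : Rest n) = Sum.inr v
    · rw [h, Function.update_self, Function.update_self]
      have : (x : ℝ) ≤ y := hxy
      split_ifs <;> linarith
    · rw [Function.update_of_ne h, Function.update_of_ne h]

/-- Flipping all non-edge coordinates. -/
def flipR (r : Rest n → unitInterval) : Rest n → unitInterval := fun i => unitInterval.symm (r i)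

lemma mp_flipR : MeasurePreserving (flipR (n := n)) volume volume :=
  volume_preserving_pi (fun _ => unitInterval.measurePreserving_symm)

lemma US_flip (hf : ∀ x, f (-x) = -f x) (R : Fin n → Fin n → Prop) (t : ℕ) (S : Finset (Fin n))
    (r : Rest n → unitInterval) (hr : ∀ i : Fin n, (r (Sum.inr i) : ℝ) ≠ 1 / 2) :
    US f R t S (flipR r) = -US f R t S r := by
  unfold US
  rw [← sum_neg_distrib]
  apply sum_congr rfl
  intro i _
  have h1 : initR (flipR r) = fun i j => -initR r i j := by
    funext i j
    unfold initR flipR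
    rw [unitInterval.coe_symm_eq]
    ring
  have h2 : coinR (flipR r) i = -coinR r i := by
    unfold coinR flipR
    rw [unitInterval.coe_symm_eq]
    rcases lt_trichotomy (r (Sum.inr i) : ℝ) (1 / 2) with h | h | h
    · rw [if_pos h, if_neg (by linarith)]
    · exact absurd h (hr i)
    · rw [if_pos (by linarith), if_neg (by linarith)]
      norm_num
  unfold est
  rw [h1, h2, field_neg hf, tieSign_neg]

lemma ae_ne_half : ∀ᵐ r : Rest n → unitInterval, ∀ i : Fin n, (r (Sum.inr i) : ℝ) ≠ 1 / 2 := by
  rw [MeasureTheory.ae_all_iff]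
  intro i
  have hmp : MeasurePreserving (fun r : Rest n → unitInterval => r (Sum.inr i)) volume volume :=
    measurePreserving_eval (fun _ : Rest n => (volume : Measure unitInterval)) (Sum.inr i)
  have h1 : (volume : Measure (Rest n → unitInterval))
      ((fun r : Rest n → unitInterval => r (Sum.inr i)) ⁻¹' {(⟨1 / 2, by norm_num, by norm_num⟩ : unitInterval)}) = 0 := by
    rw [hmp.measure_preimage (measurableSet_singleton _).nullMeasurableSet]
    exact measure_singleton _
  rw [ae_iff]
  convert h1 using 2
  ext r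
  simp only [ne_eq, not_not, Set.mem_ofPred_eq, Set.mem_preimage, Set.mem_singleton_iff]
  constructor
  · intro h; exact Subtype.ext h
  · intro h; rw [h]

lemma prob_pos_le_half (hf : ∀ x, f (-x) = -f x) (hfm : Measurable f) (R : Fin n → Fin n → Prop)
    (t : ℕ) (S : Finset (Fin n)) :
    (volume : Measure (Rest n → unitInterval)).real {r | 0 < US f R t S r} ≤ 1 / 2 ∧
    (volume : Measure (Rest n → unitInterval)).real {r | US f R t S r < 0} ≤ 1 / 2 := by
  set μ := (volume : Measure (Rest n → unitInterval))
  have hU := measurable_US hfm R t S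
  have hp : MeasurableSet {r | 0 < US f R t S r} := measurableSet_lt measurable_const hU
  have hm : MeasurableSet {r | US f R t S r < 0} := measurableSet_lt hU measurable_const
  have h1 : μ.real {r | 0 < US f R t S r} = μ.real {r | US f R t S r < 0} := by
    rw [← (mp_flipR (n := n)).measureReal_preimage hp.nullMeasurableSet]
    apply measureReal_congr
    filter_upwards [ae_ne_half (n := n)] with r hr
    have := US_flip hf R t S r hr
    show (0 < US f R t S (flipR r)) = (US f R t S r < 0)
    rw [this]
    simp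
  have h2 : μ.real {r | 0 < US f R t S r} + μ.real {r | US f R t S r < 0} ≤ 1 := by
    rw [← measureReal_union _ hm]
    · exact measureReal_le_one
    · rw [Set.disjoint_left]
      intro r h3 h4
      simp only [Set.mem_ofPred_eq] at h3 h4
      linarith
  constructor <;> linarith

/-- Harris inequality applied to the two partial sums: opposite signs have probability at most
one quarter. -/
lemma prob_opposite (hodd : ∀ x, f (-x) = -f x) (hfm : Measurable f) (hf : Monotone f ∨ Antitone f)
    (R : Fin n → Fin n → Prop) (t : ℕ) (S S' : Finset (Fin n)) :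
    (volume : Measure (Rest n → unitInterval)).real {r | 0 < US f R t S r ∧ US f R t S' r < 0} ≤ 1 / 4 := by
  classical
  set μ := (volume : Measure (Rest n → unitInterval)) with hμ
  have hU := measurable_US hfm R t S
  have hV := measurable_US hfm R t S'
  set A : Set (Rest n → unitInterval) := {r | 0 < US f R t S r} with hA
  set B : Set (Rest n → unitInterval) := {r | 0 ≤ US f R t S' r} with hB
  have hAm : MeasurableSet A := measurableSet_lt measurable_const hU
  have hBm : MeasurableSet B := measurableSet_le measurable_const hV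
  have hH := harris (X := unitInterval) (A.indicator (fun _ => (1 : ℝ))) (B.indicator (fun _ => (1 : ℝ)))
    (measurable_const.indicator hAm) (measurable_const.indicator hBm) 1
    (by intro r; by_cases h : r ∈ A <;> simp [h]) (by intro r; by_cases h : r ∈ B <;> simp [h])
    (by
      intro i ω ω' x y
      -- compare according to the direction of coordinate i
      have hA1 : ∀ r : Rest n → unitInterval, A.indicator (fun _ => (1 : ℝ)) r
          = if 0 < US f R t S r then 1 else 0 := by
        intro r; rw [Set.indicator_apply]; rfl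
      have hB1 : ∀ r : Rest n → unitInterval, B.indicator (fun _ => (1 : ℝ)) r
          = if 0 ≤ US f R t S' r then 1 else 0 := by
        intro r; rw [Set.indicator_apply]; rfl
      rw [hA1, hA1, hB1, hB1]
      have mA : ∀ u v : ℝ, u ≤ v → (if 0 < u then (1 : ℝ) else 0) ≤ (if 0 < v then 1 else 0) := by
        intro u v huv; split_ifs <;> linarith
      have mB : ∀ u v : ℝ, u ≤ v → (if 0 ≤ u then (1 : ℝ) else 0) ≤ (if 0 ≤ v then 1 else 0) := by
        intro u v huv; split_ifs <;> linarith
      rcases US_dir (n := n) hf R t i with h | h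
      · rcases le_total x y with hxy | hxy
        · exact mul_nonneg_of_nonpos_of_nonpos
            (sub_nonpos.2 (mA _ _ (h S ω x y hxy))) (sub_nonpos.2 (mB _ _ (h S' ω' x y hxy)))
        · exact mul_nonneg
            (sub_nonneg.2 (mA _ _ (h S ω y x hxy))) (sub_nonneg.2 (mB _ _ (h S' ω' y x hxy)))
      · rcases le_total x y with hxy | hxy
        · exact mul_nonneg
            (sub_nonneg.2 (mA _ _ (h S ω x y hxy))) (sub_nonneg.2 (mB _ _ (h S' ω' x y hxy)))
        · exact mul_nonneg_of_nonpos_of_nonpos
            (sub_nonpos.2 (mA _ _ (h S ω y x hxy))) (sub_nonpos.2 (mB _ _ (h S' ω' y x hxy))))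
  have e1 : ∫ r, A.indicator (fun _ => (1 : ℝ)) r = μ.real A := integral_indicator_one hAm
  have e2 : ∫ r, B.indicator (fun _ => (1 : ℝ)) r = μ.real B := integral_indicator_one hBm
  have e3 : ∫ r, A.indicator (fun _ => (1 : ℝ)) r * B.indicator (fun _ => (1 : ℝ)) r = μ.real (A ∩ B) := by
    have : ∀ r, A.indicator (fun _ => (1 : ℝ)) r * B.indicator (fun _ => (1 : ℝ)) r
        = (A ∩ B).indicator (fun _ => (1 : ℝ)) r := by
      intro r
      by_cases h : r ∈ A <;> by_cases h' : r ∈ B <;> simp [h, h']
    simp_rw [this]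
    exact integral_indicator_one (hAm.inter hBm)
  rw [e1, e2, e3] at hH
  have hset : {r | 0 < US f R t S r ∧ US f R t S' r < 0} = A \ B := by
    ext r
    simp only [hA, hB, Set.mem_ofPred_eq, Set.mem_sdiff, not_le]
  rw [hset]
  have h1 : μ.real (A ∩ B) + μ.real (A \ B) = μ.real A := measureReal_inter_add_sdiff hBm
  have h2 : μ.real B = 1 - μ.real Bᶜ := by
    have := probReal_compl_eq_one_sub (μ := μ) hBm
    linarith
  have h3 : μ.real Bᶜ ≤ 1 / 2 := by
    have e : Bᶜ = {r | US f R t S' r < 0} := by
      ext r; simp [hB]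
    rw [e]
    exact (prob_pos_le_half hodd hfm R t S').2
  have h4 : μ.real A ≤ 1 / 2 := (prob_pos_le_half hodd hfm R t S).1
  have h5 : 0 ≤ μ.real A := measureReal_nonneg
  have h6 : 0 ≤ μ.real Bᶜ := measureReal_nonneg
  nlinarith

lemma prob_large (hodd : ∀ x, f (-x) = -f x) (hfm : Measurable f) (hf : Monotone f ∨ Antitone f)
    (R : Fin n → Fin n → Prop) (t : ℕ) (S S' : Finset (Fin n)) {M : ℝ} (hS : (S.card : ℝ) < M)
    (hS' : (S'.card : ℝ) < M) :
    (volume : Measure (Rest n → unitInterval)).real {r | M ≤ |US f R t S r - US f R t S' r|} ≤ 1 / 2 := by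
  have h1 := prob_opposite hodd hfm hf R t S S'
  have h2 := prob_opposite hodd hfm hf R t S' S
  have hsub : {r : Rest n → unitInterval | M ≤ |US f R t S r - US f R t S' r|}
      ⊆ {r | 0 < US f R t S r ∧ US f R t S' r < 0} ∪ {r | 0 < US f R t S' r ∧ US f R t S r < 0} := by
    intro r hr
    simp only [Set.mem_ofPred_eq, Set.mem_union] at hr ⊢
    by_contra hcon
    push Not at hcon
    have hU := abs_le.1 (US_abs_le (f := f) R t S r)
    have hV := abs_le.1 (US_abs_le (f := f) R t S' r)
    have : |US f R t S r - US f R t S' r| < M := by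
      rw [abs_lt]
      rcases lt_or_ge 0 (US f R t S r) with h3 | h3
      · have := hcon.1 h3
        constructor <;> linarith
      · rcases lt_or_ge 0 (US f R t S' r) with h4 | h4
        · have := hcon.2 h4
          constructor <;> linarith
        · constructor <;> linarith
    linarith
  calc _ ≤ (volume : Measure (Rest n → unitInterval)).real
        ({r | 0 < US f R t S r ∧ US f R t S' r < 0} ∪ {r | 0 < US f R t S' r ∧ US f R t S r < 0}) :=
        measureReal_mono hsub
    _ ≤ _ := measureReal_union_le _ _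
    _ ≤ 1 / 2 := by linarith

/-! Back to the full sample space. -/

/-- Adjacency from the edge coordinates. -/
def adjE (a b : ℝ) (σ : Fin n → Bool) (e : Sym2 (Fin n) → unitInterval) (i j : Fin n) : Prop :=
  i ≠ j ∧ (e s(i, j) : ℝ) < (if σ i = σ j then a / n else b / n)

lemma overlap_elim (a b : ℝ) (t : ℕ) (σ : Fin n → Bool) (e : Sym2 (Fin n) → unitInterval)
    (r : Rest n → unitInterval) :
    overlap a b t σ ((MeasurableEquiv.sumPiEquivProdPi (fun _ : Idx n => unitInterval)).symm (e, r))
      = (US (fBP ((a - b) / (a + b))) (adjE a b σ e) t (Sp σ) r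
        - US (fBP ((a - b) / (a + b))) (adjE a b σ e) t (Sm σ) r) / n := by
  unfold overlap
  congr 1
  have hadj : adj a b σ ((MeasurableEquiv.sumPiEquivProdPi (fun _ : Idx n => unitInterval)).symm (e, r))
      = adjE a b σ e := rfl
  have hinit : init ((MeasurableEquiv.sumPiEquivProdPi (fun _ : Idx n => unitInterval)).symm (e, r))
      = initR r := rfl
  have hcoin : coin ((MeasurableEquiv.sumPiEquivProdPi (fun _ : Idx n => unitInterval)).symm (e, r))
      = coinR r := rfl
  rw [hadj, hinit, hcoin]
  unfold US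
  set g : Fin n → ℝ := fun i => est (fBP ((a - b) / (a + b))) (adjE a b σ e) (initR r) (coinR r) t i with hg
  show ∑ i : Fin n, g i * lab σ i = ∑ i ∈ Sp σ, g i - ∑ i ∈ Sm σ, g i
  have hu : (univ : Finset (Fin n)) = Sp σ ∪ Sm σ := by
    ext i
    simp only [Sp, Sm, mem_union, mem_filter, mem_univ, true_and, true_iff]
    cases σ i <;> simp
  rw [hu, sum_union (disj_Sp_Sm σ)]
  have e1 : ∑ i ∈ Sp σ, g i * lab σ i = ∑ i ∈ Sp σ, g i := by
    apply sum_congr rfl
    intro i hi
    simp only [Sp, mem_filter, mem_univ, true_and] at hi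
    simp [lab, hi]
  have e2 : ∑ i ∈ Sm σ, g i * lab σ i = - ∑ i ∈ Sm σ, g i := by
    rw [← sum_neg_distrib]
    apply sum_congr rfl
    intro i hi
    simp only [Sm, mem_filter, mem_univ, true_and] at hi
    simp [lab, hi]
  rw [e1, e2]; ring

lemma fBP_odd (θ x : ℝ) (hθ : |θ| ≤ 1) : fBP θ (-x) = -fBP θ x := by
  unfold fBP
  rw [Real.tanh_neg, mul_neg]
  set y := θ * Real.tanh x with hy
  have hy1 : |y| < 1 := by
    rw [hy, abs_mul]
    have h1 := Real.abs_tanh_lt_one x
    have h2 := abs_nonneg (Real.tanh x)
    nlinarith [abs_nonneg θ]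
  rw [abs_lt] at hy1
  obtain ⟨z, hz⟩ : ∃ z, Real.tanh z = y := ⟨Real.artanh y, Real.tanh_artanh ⟨hy1.1, hy1.2⟩⟩
  rw [← hz, ← Real.tanh_neg, Real.artanh_tanh, Real.artanh_tanh]

lemma tanh_mono : Monotone Real.tanh := by
  intro x y hxy
  by_contra h
  push Not at h
  have := Real.artanh_le_artanh (Real.neg_one_lt_tanh y) (Real.tanh_lt_one x) h.le
  rw [Real.artanh_tanh, Real.artanh_tanh] at this
  have : x = y := le_antisymm hxy this
  rw [this] at h
  exact lt_irrefl _ h

lemma mul_tanh_mem {θ : ℝ} (hθ : |θ| ≤ 1) (x : ℝ) : -1 < θ * Real.tanh x ∧ θ * Real.tanh x < 1 := by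
  rw [← abs_lt, abs_mul]
  have h1 := Real.abs_tanh_lt_one x
  have h2 := abs_nonneg (Real.tanh x)
  nlinarith [abs_nonneg θ]

lemma fBP_dir {θ : ℝ} (hθ : |θ| ≤ 1) : Monotone (fBP θ) ∨ Antitone (fBP θ) := by
  rcases le_total 0 θ with h | h
  · left
    intro x y hxy
    unfold fBP
    exact Real.artanh_le_artanh (mul_tanh_mem hθ x).1 (mul_tanh_mem hθ y).2
      (mul_le_mul_of_nonneg_left (tanh_mono hxy) h)
  · right
    intro x y hxy
    unfold fBP
    exact Real.artanh_le_artanh (mul_tanh_mem hθ y).1 (mul_tanh_mem hθ x).2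
      (mul_le_mul_of_nonpos_left (tanh_mono hxy) h)

lemma theta_abs {a b : ℝ} (ha : 0 ≤ a) (hb : 0 ≤ b) : |(a - b) / (a + b)| ≤ 1 := by
  rcases (add_nonneg ha hb).eq_or_lt with h | h
  · rw [← h]; simp
  · rw [abs_div, abs_of_pos h, div_le_one h, abs_le]
    constructor <;> linarith

lemma barrier_label {a b : ℝ} (ha : 0 ≤ a) (hb : 0 ≤ b) (t : ℕ) (σ : Fin n → Bool) {ε : ℝ}
    (hn : 0 < n) (hp : ((Sp σ).card : ℝ) < ε * n) (hm : ((Sm σ).card : ℝ) < ε * n) :
    (volume : Measure (Om n)).real {ω | ε ≤ |overlap a b t σ ω|} ≤ 1 / 2 := by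
  have hnr : (0 : ℝ) < n := by exact_mod_cast hn
  set f := fBP ((a - b) / (a + b)) with hf
  have hθ := theta_abs ha hb
  have hfm : Measurable f := measurable_fBP _
  set E : Set (Om n) := {ω | ε ≤ |overlap a b t σ ω|} with hE
  have hEm : MeasurableSet E := measurableSet_le measurable_const (measurable_overlap a b t σ).abs
  set Φ := (MeasurableEquiv.sumPiEquivProdPi (fun _ : Idx n => unitInterval)).symm with hΦ
  have hmp : MeasurePreserving Φ volume volume :=
    volume_measurePreserving_sumPiEquivProdPi_symm (fun _ : Idx n => unitInterval)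
  have h1 : (volume : Measure (Om n)) E = volume (Φ ⁻¹' E) :=
    (hmp.measure_preimage hEm.nullMeasurableSet).symm
  have h2 : (volume : Measure ((Sym2 (Fin n) → unitInterval) × (Rest n → unitInterval))) (Φ ⁻¹' E)
      ≤ ENNReal.ofReal (1 / 2) := by
    rw [Measure.volume_eq_prod, Measure.prod_apply (hmp.measurable hEm)]
    calc ∫⁻ e : Sym2 (Fin n) → unitInterval, volume (Prod.mk e ⁻¹' (Φ ⁻¹' E))
        ≤ ∫⁻ e : Sym2 (Fin n) → unitInterval, ENNReal.ofReal (1 / 2) := by
          apply lintegral_mono
          intro e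
          have h3 := prob_large (fun x => fBP_odd _ x hθ) hfm (fBP_dir hθ) (adjE a b σ e) t (Sp σ) (Sm σ) hp hm
          have h4 : Prod.mk e ⁻¹' (Φ ⁻¹' E) = {r | ε * n ≤ |US f (adjE a b σ e) t (Sp σ) r
              - US f (adjE a b σ e) t (Sm σ) r|} := by
            ext r
            simp only [Set.mem_preimage, hE, Set.mem_ofPred_eq]
            rw [hΦ, overlap_elim, abs_div, Nat.abs_cast, le_div_iff₀ hnr]
          simp only
          rw [h4, ← ENNReal.ofReal_toReal (measure_ne_top _ _)]
          exact ENNReal.ofReal_le_ofReal h3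
      _ = ENNReal.ofReal (1 / 2) := by simp
  unfold Measure.real
  rw [h1]
  exact ENNReal.toReal_le_of_le_ofReal (by norm_num) h2

/-- Belief propagation from random initialisation never has overlap above `1/2 + δ` with
probability much larger than `1/2`. -/
theorem barrier {a b : ℝ} (ha : 0 ≤ a) (hb : 0 ≤ b) {n : ℕ} (hn : 0 < n) (t : ℕ) {δ : ℝ} (hδ : 0 < δ) :
    succProb n t a b (1 / 2 + δ) ≤ 1 / 2 + 1 / (8 * n * δ ^ 2) := by
  classical
  have hnr : (0 : ℝ) < n := by exact_mod_cast hn
  unfold succProb
  rw [div_le_iff₀ (by positivity)]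
  set good := univ.filter (fun σ : Fin n → Bool => (((n : ℤ) - 2 * (Sp σ).card : ℤ) : ℝ) ^ 2 < (2 * δ * n) ^ 2) with hgood
  set bad := univ.filter (fun σ : Fin n → Bool => ¬ (((n : ℤ) - 2 * (Sp σ).card : ℤ) : ℝ) ^ 2 < (2 * δ * n) ^ 2) with hbad
  have hsplit := sum_filter_add_sum_filter_not (univ : Finset (Fin n → Bool))
    (fun σ : Fin n → Bool => (((n : ℤ) - 2 * (Sp σ).card : ℤ) : ℝ) ^ 2 < (2 * δ * n) ^ 2)
    (fun σ => (volume : Measure (Om n)).real {ω | 1 / 2 + δ ≤ |overlap a b t σ ω|})
  rw [← hsplit, ← hgood]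
  have hcards : (good.card : ℝ) + bad.card = 2 ^ n := by
    have := card_filter_add_card_filter_not (s := (univ : Finset (Fin n → Bool)))
      (fun σ : Fin n → Bool => (((n : ℤ) - 2 * (Sp σ).card : ℤ) : ℝ) ^ 2 < (2 * δ * n) ^ 2)
    rw [← hgood, ← hbad] at this
    simp only [card_univ, Fintype.card_pi, Fintype.card_bool, prod_const, Fintype.card_fin] at this
    exact_mod_cast this
  have h1 : ∑ σ ∈ good, (volume : Measure (Om n)).real {ω | 1 / 2 + δ ≤ |overlap a b t σ ω|}
      ≤ good.card * (1 / 2) := by
    calc _ ≤ ∑ σ ∈ good, (1 / 2 : ℝ) := by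
          apply sum_le_sum
          intro σ hσ
          rw [hgood, mem_filter] at hσ
          have h2 := abs_lt_of_sq_lt_sq hσ.2 (by positivity)
          rw [abs_lt] at h2
          have h3 := card_Sp_Sm σ
          have h4 : ((Sp σ).card : ℝ) + (Sm σ).card = n := by exact_mod_cast h3
          push_cast at h2
          apply barrier_label ha hb t σ hn
          · linarith [h2.1, h2.2]
          · linarith [h2.1, h2.2]
      _ = _ := by rw [sum_const, nsmul_eq_mul]
  have h2 : ∑ σ ∈ bad, (volume : Measure (Om n)).real {ω | 1 / 2 + δ ≤ |overlap a b t σ ω|} ≤ bad.card := by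
    calc _ ≤ ∑ σ ∈ bad, (1 : ℝ) := sum_le_sum (fun σ _ => measureReal_le_one)
      _ = _ := by simp
  have h3 : (bad.card : ℝ) * (2 * δ * n) ^ 2 ≤ n * 2 ^ n := by
    have hc : (bad.card : ℝ) = ∑ k ∈ (range (n + 1)).filter
        (fun k : ℕ => ¬ (((n : ℤ) - 2 * k : ℤ) : ℝ) ^ 2 < (2 * δ * n) ^ 2), (n.choose k : ℝ) := by
      rw [hbad]
      convert count_labels (n := n) (fun k : ℕ => ¬ (((n : ℤ) - 2 * k : ℤ) : ℝ) ^ 2 < (2 * δ * n) ^ 2)
    rw [hc, ← binom_second_moment, sum_mul]
    calc _ ≤ ∑ k ∈ (range (n + 1)).filter (fun k : ℕ => ¬ (((n : ℤ) - 2 * k : ℤ) : ℝ) ^ 2 < (2 * δ * n) ^ 2),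
            ((n : ℝ) - 2 * k) ^ 2 * (n.choose k : ℝ) := by
          apply sum_le_sum
          intro k hk
          simp only [mem_filter, not_lt] at hk
          rw [mul_comm]
          apply mul_le_mul_of_nonneg_right _ (Nat.cast_nonneg _)
          have := hk.2
          push_cast at this
          exact this
      _ ≤ _ := by
          apply sum_le_sum_of_subset_of_nonneg (filter_subset _ _)
          intro k _ _
          positivity
  have h4 : (bad.card : ℝ) ≤ 2 * (1 / (8 * n * δ ^ 2)) * 2 ^ n := by
    have h5 : (bad.card : ℝ) ≤ n * 2 ^ n / (2 * δ * n) ^ 2 := by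
      rw [le_div_iff₀ (by positivity)]; exact h3
    have h6 : n * 2 ^ n / (2 * δ * n) ^ 2 = 2 * (1 / (8 * n * δ ^ 2)) * 2 ^ n := by
      field_simp
      norm_num
    linarith
  nlinarith

end Pool.Agent.Helper87.BP
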