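import Pool.Agent.Helper87.BP.Smooth

set_option autoImplicit false

namespace Pool.Agent.Helper87.BP

open MeasureTheory Finset ProbabilityTheory

variable {n : ℕ}

/-- Vertices with label `+`. -/
def Sp (σ : Fin n → Bool) : Finset (Fin n) := univ.filter (fun i => σ i = true)
/-- Vertices with label `-`. -/
def Sm (σ : Fin n → Bool) : Finset (Fin n) := univ.filter (fun i => σ i = false)

lemma disj_Sp_Sm (σ : Fin n → Bool) : Disjoint (Sp σ) (Sm σ) := by
  rw [disjoint_left]
  intro i h1 h2
  simp only [Sp, Sm, mem_filter, mem_univ, true_and] at h1 h2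
  rw [h1] at h2; exact absurd h2 (by simp)

lemma card_Sp_Sm (σ : Fin n → Bool) : (Sp σ).card + (Sm σ).card = n := by
  rw [← card_union_of_disjoint (disj_Sp_Sm σ)]
  have : Sp σ ∪ Sm σ = univ := by
    ext i
    simp only [Sp, Sm, mem_union, mem_filter, mem_univ, true_and, iff_true]
    cases σ i <;> simp
  rw [this]; simp

lemma adj_zero_iff_p {a : ℝ} {σ : Fin n → Bool} {ω : Om n} {k i : Fin n} (hi : i ∈ Sp σ) :
    adj a 0 σ ω k i ↔ RS (a / n) (Sp σ) ω k i := by
  simp only [Sp, mem_filter, mem_univ, true_and] at hi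
  unfold adj RS
  simp only [Sp, mem_filter, mem_univ, true_and, hi]
  by_cases hk : σ k = true
  · simp [hk]
  · simp only [hk, if_false]
    constructor
    · rintro ⟨_, h⟩
      simp only [zero_div] at h
      exact absurd h (not_lt.2 (ω _).2.1)
    · rintro ⟨_, h, _⟩
      exact absurd h (by simp)

lemma adj_zero_iff_m {a : ℝ} {σ : Fin n → Bool} {ω : Om n} {k i : Fin n} (hi : i ∈ Sm σ) :
    adj a 0 σ ω k i ↔ RS (a / n) (Sm σ) ω k i := by
  simp only [Sm, mem_filter, mem_univ, true_and] at hi
  unfold adj RS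
  simp only [Sm, mem_filter, mem_univ, true_and, hi]
  by_cases hk : σ k = false
  · simp [hk]
  · simp only [hk, if_false]
    constructor
    · rintro ⟨_, h⟩
      simp only [zero_div] at h
      exact absurd h (not_lt.2 (ω _).2.1)
    · rintro ⟨_, h, _⟩
      exact absurd h (by simp)

open Classical in
/-- Contribution of the isolated vertices. -/
noncomputable def Nz (a b : ℝ) (σ : Fin n → Bool) (ω : Om n) : ℝ :=
  (∑ i : Fin n, if (∃ k, adj a b σ ω k i) then 0 else coin ω i * lab σ i) / n

lemma sum_part_p (f : ℝ → ℝ) (a : ℝ) (t : ℕ) (σ : Fin n → Bool) (ω : Om n) (S : Finset (Fin n))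
    (hS : ∀ k i, i ∈ S → (adj a 0 σ ω k i ↔ RS (a / n) S ω k i)) [DecidablePred fun i => ∃ k, adj a 0 σ ω k i] :
    ∑ i ∈ S, (if (∃ k, adj a 0 σ ω k i) then est f (adj a 0 σ ω) (init ω) (coin ω) t i else 0)
      = X f (a / n) t S ω * n := by
  classical
  by_cases hn : (n : ℝ) = 0
  · have : n = 0 := by exact_mod_cast hn
    subst this
    simp only [CharP.cast_eq_zero, mul_zero]
    apply sum_eq_zero
    intro i _
    exact i.elim0
  unfold X XR
  rw [div_mul_cancel₀ _ hn, ← sum_filter]
  have hs : univ.filter (fun i => ∃ k, RS (a / n) S ω k i) = S.filter (fun i => ∃ k, adj a 0 σ ω k i) := by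
    ext i
    simp only [mem_filter, mem_univ, true_and]
    constructor
    · rintro ⟨k, hk⟩
      have hi : i ∈ S := hk.2.2.1
      exact ⟨hi, k, (hS k i hi).2 hk⟩
    · rintro ⟨hi, k, hk⟩
      exact ⟨k, (hS k i hi).1 hk⟩
  rw [hs]
  apply sum_congr rfl
  intro i hi
  rw [mem_filter] at hi
  apply est_local (fun i => i ∈ S) (fun k i hi => hS k i hi) _ (fun _ _ _ _ => rfl) _ _ hi.1 rfl
  intro k i hi hk
  exact ((hS k i hi).1 hk).2.1

lemma overlap_eq (a : ℝ) (t : ℕ) (σ : Fin n → Bool) (ω : Om n) :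
    overlap a 0 t σ ω = X (fBP ((a - 0) / (a + 0))) (a / n) t (Sp σ) ω
      - X (fBP ((a - 0) / (a + 0))) (a / n) t (Sm σ) ω + Nz a 0 σ ω := by
  classical
  set f := fBP ((a - 0) / (a + 0)) with hf
  by_cases hn : n = 0
  · subst hn
    simp [overlap, X, XR, Nz]
  have hn' : (n : ℝ) ≠ 0 := by exact_mod_cast hn
  have h1 := sum_part_p f a t σ ω (Sp σ) (fun k i hi => adj_zero_iff_p hi)
  have h2 := sum_part_p f a t σ ω (Sm σ) (fun k i hi => adj_zero_iff_m hi)
  unfold overlap Nz
  have h3 : ∀ i : Fin n, est f (adj a 0 σ ω) (init ω) (coin ω) t i * lab σ i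
      = (if (∃ k, adj a 0 σ ω k i) then est f (adj a 0 σ ω) (init ω) (coin ω) t i else 0) * lab σ i
        + (if (∃ k, adj a 0 σ ω k i) then 0 else coin ω i * lab σ i) := by
    intro i
    split_ifs with h
    · ring
    · have : field f (adj a 0 σ ω) (init ω) t i = 0 := by
        unfold field
        apply sum_eq_zero
        intro k hk
        simp only [mem_filter, mem_univ, true_and] at hk
        exact absurd ⟨k, hk⟩ h
      unfold est tieSign
      rw [this]
      simp
  rw [← hf]
  simp_rw [h3]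
  rw [sum_add_distrib, add_div]
  congr 1
  have hsplit : ∀ g : Fin n → ℝ, ∑ i : Fin n, g i * lab σ i = ∑ i ∈ Sp σ, g i - ∑ i ∈ Sm σ, g i := by
    intro g
    have hu : (univ : Finset (Fin n)) = Sp σ ∪ Sm σ := by
      ext i
      simp only [Sp, Sm, mem_union, mem_filter, mem_univ, true_and, true_iff]
      cases σ i <;> simp
    rw [hu, sum_union (disj_Sp_Sm σ)]
    have e1 : ∑ i ∈ Sp σ, g i * lab σ i = ∑ i ∈ Sp σ, g i := by
      apply sum_congr rfl
      intro i hi
      simp only [Sp, mem_filter, mem_univ, true_and] at hi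
      simp [lab, hi]
    have e2 : ∑ i ∈ Sm σ, g i * lab σ i = - ∑ i ∈ Sm σ, g i := by
      rw [← sum_neg_distrib]
      apply sum_congr rfl
      intro i hi
      simp only [Sm, mem_filter, mem_univ, true_and] at hi
      simp [lab, hi]
    rw [e1, e2]; ring
  rw [hsplit, h1, h2]
  field_simp

/-- Terms of the isolated contribution. -/
noncomputable def At (a b : ℝ) (σ : Fin n → Bool) (i : Fin n) (ω : Om n) : ℝ :=
  ({ω : Om n | ∃ k, adj a b σ ω k i}ᶜ).indicator (fun ω => coin ω i * lab σ i) ω

lemma measurable_isoset (a b : ℝ) (σ : Fin n → Bool) (i : Fin n) :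
    MeasurableSet {ω : Om n | ∃ k, adj a b σ ω k i} := by
  have : {ω : Om n | ∃ k, adj a b σ ω k i} = ⋃ k, {ω | adj a b σ ω k i} := by ext; simp
  rw [this]
  exact MeasurableSet.iUnion (fun k => measurable_adj a b σ k i)

lemma measurable_At (a b : ℝ) (σ : Fin n → Bool) (i : Fin n) : Measurable (At a b σ i) := by
  unfold At
  exact ((measurable_coin i).mul_const _).indicator (measurable_isoset a b σ i).compl

lemma At_abs_le (a b : ℝ) (σ : Fin n → Bool) (i : Fin n) (ω : Om n) : |At a b σ i ω| ≤ 1 := by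
  unfold At
  by_cases h : ω ∈ ({ω : Om n | ∃ k, adj a b σ ω k i}ᶜ)
  · rw [Set.indicator_of_mem h, abs_mul, coin_abs]
    unfold lab; split_ifs <;> simp
  · rw [Set.indicator_of_notMem h]; simp

lemma Nz_eq (a b : ℝ) (σ : Fin n → Bool) (ω : Om n) :
    Nz a b σ ω = (∑ i : Fin n, At a b σ i ω) / n := by
  classical
  unfold Nz At
  congr 1
  apply sum_congr rfl
  intro i _
  by_cases h : ∃ k, adj a b σ ω k i
  · rw [if_pos h, Set.indicator_of_notMem]
    simp [h]
  · rw [if_neg h, Set.indicator_of_mem]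
    simp [h]

lemma integral_coin (i : Fin n) : ∫ ω : Om n, coin ω i = 0 := by
  have hmp : MeasurePreserving (fun ω : Om n => ω (Sum.inr (Sum.inr i))) volume volume :=
    measurePreserving_eval (fun _ : Idx n => (volume : Measure unitInterval)) (Sum.inr (Sum.inr i))
  have hmeas : Measurable (fun x : unitInterval => if (x : ℝ) < 1 / 2 then (1 : ℝ) else -1) :=
    Measurable.ite (measurableSet_lt measurable_subtype_coe measurable_const) measurable_const measurable_const
  have h1 : ∫ ω : Om n, coin ω i = ∫ x : unitInterval, (if (x : ℝ) < 1 / 2 then (1 : ℝ) else -1) := by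
    rw [← hmp.map_eq, integral_map hmp.measurable.aemeasurable hmeas.aestronglyMeasurable]
    rfl
  rw [h1]
  set s : Set unitInterval := Set.Iio (⟨1 / 2, by norm_num, by norm_num⟩ : unitInterval) with hs
  have h2 : ∀ x : unitInterval, (if (x : ℝ) < 1 / 2 then (1 : ℝ) else -1)
      = 2 * s.indicator (fun _ => (1 : ℝ)) x - 1 := by
    intro x
    by_cases h : (x : ℝ) < 1 / 2
    · have : x ∈ s := by
        rw [hs, Set.mem_Iio]; exact h
      rw [if_pos h, Set.indicator_of_mem this]; norm_num
    · have : x ∉ s := by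
        rw [hs, Set.mem_Iio]; exact h
      rw [if_neg h, Set.indicator_of_notMem this]; norm_num
  simp_rw [h2]
  have hsm : MeasurableSet s := measurableSet_Iio
  rw [integral_sub (((integrable_const (1 : ℝ)).indicator hsm).const_mul 2) (integrable_const 1),
    integral_const_mul]
  have h3 : ∫ x : unitInterval, s.indicator (fun _ => (1 : ℝ)) x = (volume : Measure unitInterval).real s :=
    integral_indicator_one hsm
  rw [h3]
  unfold Measure.real
  rw [hs, unitInterval.volume_Iio]
  simp only [integral_const, probReal_univ, smul_eq_mul, mul_one]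
  rw [ENNReal.toReal_ofReal (by norm_num)]
  norm_num

lemma integral_At_mul (a b : ℝ) (σ : Fin n → Bool) {i j : Fin n} (hij : i ≠ j) :
    ∫ ω : Om n, At a b σ i ω * At a b σ j ω = 0 := by
  classical
  set g : Om n → ℝ := fun ω => ({ω : Om n | ∃ k, adj a b σ ω k i}ᶜ).indicator (fun _ => lab σ i) ω * At a b σ j ω with hg
  have hgm : Measurable g :=
    (measurable_const.indicator (measurable_isoset a b σ i).compl).mul (measurable_At a b σ j)
  have e : ∀ ω, At a b σ i ω * At a b σ j ω = coin ω i * g ω := by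
    intro ω
    simp only [hg, At]
    by_cases h : ω ∈ ({ω : Om n | ∃ k, adj a b σ ω k i}ᶜ)
    · rw [Set.indicator_of_mem h, Set.indicator_of_mem h]; ring
    · rw [Set.indicator_of_notMem h, Set.indicator_of_notMem h]; ring
  simp_rw [e]
  have hadj : ∀ (ω ω' : Om n) (k l : Fin n), (∀ x ∈ (univ.erase (Sum.inr (Sum.inr i)) : Finset (Idx n)), ω x = ω' x) →
      (adj a b σ ω k l ↔ adj a b σ ω' k l) := by
    intro ω ω' k l h
    unfold adj
    rw [h _ (by simp)]
  have hind : IndepFun (fun ω : Om n => coin ω i) g volume := by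
    apply indep_of_dependsOn (measurable_coin i) hgm (A := {Sum.inr (Sum.inr i)})
      (B := univ.erase (Sum.inr (Sum.inr i)))
    · rw [disjoint_left]
      intro x hx hy
      simp only [mem_singleton] at hx
      simp [hx] at hy
    · intro ω ω' h
      simp only [coe_singleton, Set.mem_singleton_iff, forall_eq] at h
      simp only [coin]
      rw [h]
    · intro ω ω' h
      have h' : ∀ x ∈ (univ.erase (Sum.inr (Sum.inr i)) : Finset (Idx n)), ω x = ω' x :=
        fun x hx => h x (by exact_mod_cast hx)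
      have hset : ∀ l, (ω ∈ {ω : Om n | ∃ k, adj a b σ ω k l}ᶜ) ↔ (ω' ∈ {ω : Om n | ∃ k, adj a b σ ω k l}ᶜ) := by
        intro l
        simp only [Set.mem_compl_iff, Set.mem_ofPred_eq]
        rw [not_iff_not]
        exact exists_congr (fun k => hadj ω ω' k l h')
      have hc : coin ω j = coin ω' j := by
        unfold coin
        rw [h' _ (by
          rw [mem_erase]
          refine ⟨?_, mem_univ _⟩
          intro h
          have h1 := Sum.inr_injective (Sum.inr_injective h)
          exact hij h1.symm)]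
      simp only [hg, At]
      by_cases h1 : ω ∈ {ω : Om n | ∃ k, adj a b σ ω k i}ᶜ
      · rw [Set.indicator_of_mem h1, Set.indicator_of_mem ((hset i).1 h1)]
        by_cases h2 : ω ∈ {ω : Om n | ∃ k, adj a b σ ω k j}ᶜ
        · rw [Set.indicator_of_mem h2, Set.indicator_of_mem ((hset j).1 h2), hc]
        · rw [Set.indicator_of_notMem h2, Set.indicator_of_notMem (fun h => h2 ((hset j).2 h))]
      · rw [Set.indicator_of_notMem h1, Set.indicator_of_notMem (fun h => h1 ((hset i).2 h))]
        ring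
  have h2 := hind.integral_fun_mul_eq_mul_integral (measurable_coin i).aestronglyMeasurable
    hgm.aestronglyMeasurable
  rw [h2, integral_coin, zero_mul]

lemma Nz_second_moment (a b : ℝ) (σ : Fin n → Bool) (hn : 0 < n) :
    ∫ ω : Om n, (Nz a b σ ω) ^ 2 ≤ 1 / n := by
  have hnr : (0 : ℝ) < n := by exact_mod_cast hn
  have hint : ∀ i j, Integrable (fun ω : Om n => At a b σ i ω * At a b σ j ω) volume := by
    intro i j
    apply Integrable.of_bound ((measurable_At a b σ i).mul (measurable_At a b σ j)).aestronglyMeasurable 1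
    refine Filter.Eventually.of_forall (fun ω => ?_)
    rw [Real.norm_eq_abs, Pi.mul_apply, abs_mul]
    have h1 := At_abs_le a b σ i ω
    have h2 := At_abs_le a b σ j ω
    have h3 := abs_nonneg (At a b σ i ω)
    have h4 := abs_nonneg (At a b σ j ω)
    nlinarith
  have e : ∀ ω : Om n, (Nz a b σ ω) ^ 2 = (∑ i : Fin n, ∑ j : Fin n, At a b σ i ω * At a b σ j ω) * (1 / n ^ 2) := by
    intro ω
    rw [Nz_eq, div_pow, sq, sum_mul_sum]
    ring
  simp_rw [e]
  rw [integral_mul_const, integral_finsetSum _ (fun i _ => integrable_finsetSum _ (fun j _ => hint i j))]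
  have h1 : ∀ i ∈ (univ : Finset (Fin n)), ∫ ω : Om n, ∑ j : Fin n, At a b σ i ω * At a b σ j ω ≤ 1 := by
    intro i _
    rw [integral_finsetSum _ (fun j _ => hint i j)]
    rw [sum_eq_single i]
    · calc ∫ ω : Om n, At a b σ i ω * At a b σ i ω ≤ ∫ ω : Om n, (1 : ℝ) := by
            apply integral_mono (hint i i) (integrable_const 1)
            intro ω
            simp only
            have h1 := At_abs_le a b σ i ω
            have h3 := abs_nonneg (At a b σ i ω)
            rw [← abs_mul_abs_self]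
            nlinarith
        _ = 1 := by simp
    · intro j _ hj
      exact integral_At_mul a b σ (Ne.symm hj)
    · intro h; exact absurd (mem_univ i) h
  have h2 : ∑ i : Fin n, ∫ ω : Om n, ∑ j : Fin n, At a b σ i ω * At a b σ j ω ≤ n := by
    calc _ ≤ ∑ i : Fin n, (1 : ℝ) := sum_le_sum h1
      _ = n := by simp
  calc _ ≤ (n : ℝ) * (1 / n ^ 2) := mul_le_mul_of_nonneg_right h2 (by positivity)
    _ = 1 / n := by field_simp

lemma measurable_Nz (a b : ℝ) (σ : Fin n → Bool) : Measurable (Nz a b σ) := by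
  have : Nz a b σ = fun ω => (∑ i : Fin n, At a b σ i ω) / n := by
    funext ω; exact Nz_eq a b σ ω
  rw [this]
  apply Measurable.div_const
  apply Finset.measurable_fun_sum
  intro i _
  exact measurable_At a b σ i

lemma Nz_tail (a b : ℝ) (σ : Fin n → Bool) (hn : 0 < n) {η : ℝ} (hη : 0 < η) :
    (volume : Measure (Om n)).real {ω | η ≤ |Nz a b σ ω|} ≤ 1 / (n * η ^ 2) := by
  have hnr : (0 : ℝ) < n := by exact_mod_cast hn
  have hb : ∀ ω, |Nz a b σ ω| ≤ 1 := by
    intro ω
    rw [Nz_eq, abs_div, Nat.abs_cast, div_le_one hnr]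
    calc |∑ i : Fin n, At a b σ i ω| ≤ ∑ i : Fin n, |At a b σ i ω| := abs_sum_le_sum_abs _ _
      _ ≤ ∑ i : Fin n, (1 : ℝ) := sum_le_sum (fun i _ => At_abs_le a b σ i ω)
      _ = n := by simp
  have hint : Integrable (fun ω : Om n => (Nz a b σ ω) ^ 2) volume := by
    apply Integrable.of_bound ((measurable_Nz a b σ).pow_const 2).aestronglyMeasurable 1
    refine Filter.Eventually.of_forall (fun ω => ?_)
    rw [Real.norm_eq_abs, abs_pow]
    have := hb ω
    have h3 := abs_nonneg (Nz a b σ ω)
    nlinarith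
  have h1 := mul_meas_ge_le_integral_of_nonneg (μ := (volume : Measure (Om n)))
    (f := fun ω => (Nz a b σ ω) ^ 2) (Filter.Eventually.of_forall (fun ω => sq_nonneg _)) hint (η ^ 2)
  have h2 : {ω : Om n | η ≤ |Nz a b σ ω|} ⊆ {ω | η ^ 2 ≤ (Nz a b σ ω) ^ 2} := by
    intro ω hω
    simp only [Set.mem_ofPred_eq] at hω ⊢
    rw [← sq_abs (Nz a b σ ω)]
    exact pow_le_pow_left₀ hη.le hω 2
  have h3 : (volume : Measure (Om n)).real {ω | η ≤ |Nz a b σ ω|}
      ≤ (volume : Measure (Om n)).real {ω | η ^ 2 ≤ (Nz a b σ ω) ^ 2} := measureReal_mono h2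
  have h4 := Nz_second_moment a b σ hn
  rw [le_div_iff₀ (by positivity)]
  have h5 : η ^ 2 * (volume : Measure (Om n)).real {ω | η ^ 2 ≤ (Nz a b σ ω) ^ 2} ≤ 1 / n := le_trans h1 h4
  have h6 : (0 : ℝ) < η ^ 2 := by positivity
  calc (volume : Measure (Om n)).real {ω | η ≤ |Nz a b σ ω|} * (n * η ^ 2)
      ≤ (volume : Measure (Om n)).real {ω | η ^ 2 ≤ (Nz a b σ ω) ^ 2} * (n * η ^ 2) :=
        mul_le_mul_of_nonneg_right h3 (by positivity)
    _ = n * (η ^ 2 * (volume : Measure (Om n)).real {ω | η ^ 2 ≤ (Nz a b σ ω) ^ 2}) := by ring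
    _ ≤ n * (1 / n) := mul_le_mul_of_nonneg_left h5 hnr.le
    _ = 1 := by field_simp

end Pool.Agent.Helper87.BP
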