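import Pool.Agent.Helper87.BP.Sub

set_option autoImplicit false

namespace Pool.Agent.Helper87.BP

open MeasureTheory Finset ProbabilityTheory

variable {n : ℕ} {f : ℝ → ℝ}

lemma integrable_ind {s : Set (Om n)} (hs : MeasurableSet s) :
    Integrable (s.indicator (fun _ => (1 : ℝ))) (volume : Measure (Om n)) :=
  (integrable_const 1).indicator hs

lemma integral_ind {s : Set (Om n)} (hs : MeasurableSet s) :
    ∫ ω, s.indicator (fun _ => (1 : ℝ)) ω = (volume : Measure (Om n)).real s := by
  have := integral_indicator_one (μ := (volume : Measure (Om n))) hs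
  exact this

/-- Adding one vertex changes the law of the statistic only slightly. -/
lemma q_smooth (hf : Measurable f) {p : ℝ} (h0 : 0 ≤ p) (h1 : p < 1) (t : ℕ) (I : Set ℝ)
    (hI : MeasurableSet I) {S T : Finset (Fin n)} (hc : T.card = S.card + 1) (hS : 1 ≤ S.card)
    {δ : ℝ} (hδ : 0 < δ)
    (hδ2 : 1 / (T.card * (1 - p) ^ (T.card - 1)) + p / (1 - p) ≤ δ ^ 2) :
    |q f p t I T - q f p t I S| ≤ δ := by
  classical
  set μ := (volume : Measure (Om n)) with hμ
  set m := T.card with hm
  have h1p : 0 < 1 - p := by linarith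
  set c : ℝ := m * (1 - p) ^ (m - 1) with hcdef
  have hmpos : (0 : ℝ) < m := by
    have : 0 < m := by omega
    exact_mod_cast this
  have hcpos : 0 < c := by positivity
  set G : Set (Om n) := {ω | X f p t T ω ∈ I} with hG
  have hGm : MeasurableSet G := (measurable_X hf p t T) hI
  set Z : Om n → ℝ := fun ω => ∑ v ∈ T, (iso p T v).indicator (fun _ => (1 : ℝ)) ω with hZ
  -- E[Z]
  have hEZ : ∫ ω, Z ω = c := by
    rw [hZ, integral_finsetSum _ (fun v _ => integrable_ind (measurable_iso p T v))]
    have : ∀ v ∈ T, ∫ ω, (iso p T v).indicator (fun _ => (1 : ℝ)) ω = (1 - p) ^ (m - 1) := by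
      intro v hv
      rw [integral_ind (measurable_iso p T v), prob_iso h0 h1.le T hv]
    rw [sum_congr rfl this, sum_const, nsmul_eq_mul]
  -- products of indicators
  have hprod : ∀ (s s' : Set (Om n)) (ω : Om n), s.indicator (fun _ => (1 : ℝ)) ω * s'.indicator (fun _ => (1 : ℝ)) ω
      = (s ∩ s').indicator (fun _ => (1 : ℝ)) ω := by
    intro s s' ω
    by_cases h : ω ∈ s <;> by_cases h' : ω ∈ s' <;> simp [h, h']
  -- E[Z^2]
  have hZ2i : ∀ ω, Z ω ^ 2 = ∑ v ∈ T, ∑ w ∈ T, (iso p T v ∩ iso p T w).indicator (fun _ => (1 : ℝ)) ω := by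
    intro ω
    rw [hZ, sq, sum_mul_sum]
    apply sum_congr rfl
    intro v _
    apply sum_congr rfl
    intro w _
    exact hprod _ _ _
  have hZ2int : Integrable (fun ω => Z ω ^ 2) μ := by
    simp_rw [hZ2i]
    exact integrable_finsetSum _ (fun v _ => integrable_finsetSum _ (fun w _ =>
      integrable_ind ((measurable_iso p T v).inter (measurable_iso p T w))))
  have hZint : Integrable Z μ :=
    integrable_finsetSum _ (fun v _ => integrable_ind (measurable_iso p T v))
  have hEZ2 : ∫ ω, Z ω ^ 2 = c + m * (m - 1) * (1 - p) ^ (2 * m - 3) := by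
    simp_rw [hZ2i]
    rw [integral_finsetSum _ (fun v _ => integrable_finsetSum _ (fun w _ =>
      integrable_ind ((measurable_iso p T v).inter (measurable_iso p T w))))]
    have h2 : ∀ v ∈ T, ∫ ω, ∑ w ∈ T, (iso p T v ∩ iso p T w).indicator (fun _ => (1 : ℝ)) ω
        = (1 - p) ^ (m - 1) + (m - 1) * (1 - p) ^ (2 * m - 3) := by
      intro v hv
      rw [integral_finsetSum _ (fun w _ =>
        integrable_ind ((measurable_iso p T v).inter (measurable_iso p T w)))]
      rw [← add_sum_erase _ _ hv]
      have h3 : ∀ w ∈ T.erase v, ∫ ω, (iso p T v ∩ iso p T w).indicator (fun _ => (1 : ℝ)) ω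
          = (1 - p) ^ (2 * m - 3) := by
        intro w hw
        rw [integral_ind ((measurable_iso p T v).inter (measurable_iso p T w))]
        rw [mem_erase] at hw
        exact prob_iso_two h0 h1.le T hv hw.2 hw.1.symm
      rw [sum_congr rfl h3, sum_const, nsmul_eq_mul, card_erase_of_mem hv]
      rw [integral_ind ((measurable_iso p T v).inter (measurable_iso p T v)), Set.inter_self,
        prob_iso h0 h1.le T hv, Nat.cast_sub (by omega)]
      push_cast
      rfl
    rw [sum_congr rfl h2, sum_const, nsmul_eq_mul]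
    rw [hcdef]
    ring
  -- E[Z 1_G]
  have hZG : ∀ ω, Z ω * G.indicator (fun _ => (1 : ℝ)) ω
      = ∑ v ∈ T, (iso p T v ∩ G).indicator (fun _ => (1 : ℝ)) ω := by
    intro ω
    rw [hZ, sum_mul]
    apply sum_congr rfl
    intro v _
    exact hprod _ _ _
  have hZGint : Integrable (fun ω => Z ω * G.indicator (fun _ => (1 : ℝ)) ω) μ := by
    simp_rw [hZG]
    exact integrable_finsetSum _ (fun v _ => integrable_ind ((measurable_iso p T v).inter hGm))
  have hEZG : ∫ ω, Z ω * G.indicator (fun _ => (1 : ℝ)) ω = c * q f p t I S := by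
    simp_rw [hZG]
    rw [integral_finsetSum _ (fun v _ => integrable_ind ((measurable_iso p T v).inter hGm))]
    have h2 : ∀ v ∈ T, ∫ ω, (iso p T v ∩ G).indicator (fun _ => (1 : ℝ)) ω
        = (1 - p) ^ (m - 1) * q f p t I S := by
      intro v hv
      rw [integral_ind ((measurable_iso p T v).inter hGm)]
      have e : iso p T v ∩ G = iso p T v ∩ {ω | X f p t (T.erase v) ω ∈ I} := by
        ext ω
        simp only [Set.mem_inter_iff, hG, Set.mem_ofPred_eq]
        constructor
        · rintro ⟨h2, h3⟩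
          refine ⟨h2, ?_⟩
          unfold X at h3 ⊢
          rw [RS_erase h2] at h3
          exact h3
        · rintro ⟨h2, h3⟩
          refine ⟨h2, ?_⟩
          unfold X at h3 ⊢
          rw [RS_erase h2]
          exact h3
      rw [e, indep_iso t hf T v I hI, prob_iso h0 h1.le T hv]
      congr 1
      have : (T.erase v).card = S.card := by rw [card_erase_of_mem hv]; omega
      exact q_card hf p t I hI this
    rw [sum_congr rfl h2, sum_const, nsmul_eq_mul, hcdef]
    ring
  -- the difference as an integral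
  have hdiff : q f p t I T - q f p t I S = ∫ ω, (G.indicator (fun _ => (1 : ℝ)) ω) * (1 - Z ω / c) := by
    have e : ∀ ω, (G.indicator (fun _ => (1 : ℝ)) ω) * (1 - Z ω / c)
        = G.indicator (fun _ => (1 : ℝ)) ω - (Z ω * G.indicator (fun _ => (1 : ℝ)) ω) * (1 / c) := by
      intro ω; ring
    simp_rw [e]
    rw [integral_sub (integrable_ind hGm) (hZGint.mul_const _), integral_mul_const, hEZG,
      integral_ind hGm]
    have : c * q f p t I S * (1 / c) = q f p t I S := by field_simp
    rw [this]
    rfl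
  have hE : ∫ ω, (1 - Z ω / c) ^ 2 ≤ δ ^ 2 := by
    have e : ∀ ω, (1 - Z ω / c) ^ 2 = 1 - Z ω * (2 / c) + Z ω ^ 2 * (1 / c ^ 2) := by
      intro ω; field_simp; ring
    simp_rw [e]
    have i1 : Integrable (fun ω => (1 : ℝ) - Z ω * (2 / c)) μ :=
      (integrable_const 1).sub (hZint.mul_const _)
    rw [integral_add i1 (hZ2int.mul_const _),
      integral_sub (integrable_const 1) (hZint.mul_const _), integral_mul_const, integral_mul_const,
      hEZ, hEZ2]
    have h2 : ∫ _ω : Om n, (1 : ℝ) = 1 := by simp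
    rw [h2]
    refine le_trans ?_ hδ2
    have hm2 : 2 ≤ m := by omega
    have h3 : m * (m - 1) * (1 - p) ^ (2 * m - 3) * (1 / c ^ 2) = ((m : ℝ) - 1) / m * (1 / (1 - p)) := by
      have e2 : (1 - p) ^ (2 * m - 3) * (1 - p) = ((1 - p) ^ (m - 1)) ^ 2 := by
        rw [← pow_succ, ← pow_mul]; congr 1; omega
      rw [hcdef, mul_pow, ← e2]
      have : (1 - p) ^ (2 * m - 3) ≠ 0 := by positivity
      field_simp
    have h4 : ((m : ℝ) - 1) / m ≤ 1 := by
      rw [div_le_one hmpos]; linarith
    have h5 : (0 : ℝ) < 1 / (1 - p) := by positivity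
    have h6 : ((m : ℝ) - 1) / m * (1 / (1 - p)) ≤ 1 / (1 - p) := by nlinarith
    have h7 : 1 / (1 - p) - 1 = p / (1 - p) := by field_simp; ring
    have h8 : c * (2 / c) = 2 := by field_simp
    have h9 : c * (1 / c ^ 2) = 1 / c := by field_simp
    rw [h8, add_mul, h9]
    linarith
  have hsqint : Integrable (fun ω => (1 - Z ω / c) ^ 2) μ := by
    have e : ∀ ω, (1 - Z ω / c) ^ 2 = 1 - Z ω * (2 / c) + Z ω ^ 2 * (1 / c ^ 2) := by
      intro ω; field_simp; ring
    simp_rw [e]
    exact ((integrable_const 1).sub (hZint.mul_const _)).add (hZ2int.mul_const _)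
  rw [hdiff]
  calc |∫ ω, (G.indicator (fun _ => (1 : ℝ)) ω) * (1 - Z ω / c)|
      ≤ ∫ ω, |(G.indicator (fun _ => (1 : ℝ)) ω) * (1 - Z ω / c)| := abs_integral_le_integral_abs
    _ ≤ ∫ ω, ((1 - Z ω / c) ^ 2 + δ ^ 2) * (1 / (2 * δ)) := by
        apply integral_mono_of_nonneg
        · exact Filter.Eventually.of_forall (fun ω => abs_nonneg _)
        · exact (hsqint.add (integrable_const _)).mul_const _
        · refine Filter.Eventually.of_forall (fun ω => ?_)
          simp only
          have h2 : |G.indicator (fun _ => (1 : ℝ)) ω| ≤ 1 := by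
            by_cases h : ω ∈ G <;> simp [h]
          rw [abs_mul]
          have h3 : |1 - Z ω / c| ≤ ((1 - Z ω / c) ^ 2 + δ ^ 2) * (1 / (2 * δ)) := by
            rw [mul_one_div, le_div_iff₀ (by positivity)]
            have := sq_nonneg (|1 - Z ω / c| - δ)
            rw [sub_sq, sq_abs] at this
            linarith
          have h4 := abs_nonneg (1 - Z ω / c)
          nlinarith
    _ = ((∫ ω, (1 - Z ω / c) ^ 2) + δ ^ 2) * (1 / (2 * δ)) := by
        have h2 : ∫ _ω : Om n, δ ^ 2 = δ ^ 2 := by simp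
        rw [integral_mul_const, integral_add hsqint (integrable_const _), h2]
    _ ≤ (δ ^ 2 + δ ^ 2) * (1 / (2 * δ)) := by
        apply mul_le_mul_of_nonneg_right _ (by positivity)
        linarith
    _ = δ := by field_simp; ring

end Pool.Agent.Helper87.BP
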