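import Pool.Agent.Helper87.BP.Defs

set_option autoImplicit false

namespace Pool.Agent.Helper87.BP

open MeasureTheory Finset

variable {n : ℕ} {f : ℝ → ℝ}

/-- Locality of the messages. -/
lemma msg_local {R R' : Fin n → Fin n → Prop} {h0 h0' : Fin n → Fin n → ℝ} (C : Fin n → Prop)
    (hR : ∀ k i, C i → (R k i ↔ R' k i)) (hC : ∀ k i, C i → R k i → C k)
    (hh : ∀ i j, C i → C j → h0 i j = h0' i j) (t : ℕ) :
    ∀ i j, C i → C j → msg f R h0 t i j = msg f R' h0' t i j := by
  classical
  induction t with
  | zero => intro i j hi hj; exact hh i j hi hj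
  | succ t ih =>
    intro i j hi hj
    simp only [msg]
    have hs : univ.filter (fun k => R k i ∧ k ≠ j) = univ.filter (fun k => R' k i ∧ k ≠ j) := by
      apply filter_congr
      intro k _
      rw [hR k i hi]
    rw [← hs]
    apply sum_congr rfl
    intro k hk
    simp only [mem_filter, mem_univ, true_and] at hk
    rw [ih k i (hC k i hi hk.1) hi]

lemma field_local {R R' : Fin n → Fin n → Prop} {h0 h0' : Fin n → Fin n → ℝ} (C : Fin n → Prop)
    (hR : ∀ k i, C i → (R k i ↔ R' k i)) (hC : ∀ k i, C i → R k i → C k)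
    (hh : ∀ i j, C i → C j → h0 i j = h0' i j) (t : ℕ) (i : Fin n) (hi : C i) :
    field f R h0 t i = field f R' h0' t i := by
  classical
  unfold field
  have hs : univ.filter (fun k => R k i) = univ.filter (fun k => R' k i) := by
    apply filter_congr
    intro k _
    rw [hR k i hi]
  rw [← hs]
  apply sum_congr rfl
  intro k hk
  simp only [mem_filter, mem_univ, true_and] at hk
  rw [msg_local C hR hC hh t k i (hC k i hi hk) hi]

lemma est_local {R R' : Fin n → Fin n → Prop} {h0 h0' : Fin n → Fin n → ℝ} {c c' : Fin n → ℝ}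
    (C : Fin n → Prop)
    (hR : ∀ k i, C i → (R k i ↔ R' k i)) (hC : ∀ k i, C i → R k i → C k)
    (hh : ∀ i j, C i → C j → h0 i j = h0' i j) (t : ℕ) (i : Fin n) (hi : C i) (hc : c i = c' i) :
    est f R h0 c t i = est f R' h0' c' t i := by
  unfold est
  rw [field_local C hR hC hh t i hi, hc]

/-- Equivariance under relabelling. -/
lemma msg_perm (π : Equiv.Perm (Fin n)) (R : Fin n → Fin n → Prop) (h0 : Fin n → Fin n → ℝ) (t : ℕ) :
    ∀ i j, msg f R h0 t (π i) (π j) = msg f (fun a b => R (π a) (π b)) (fun a b => h0 (π a) (π b)) t i j := by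
  classical
  induction t with
  | zero => intro i j; rfl
  | succ t ih =>
    intro i j
    simp only [msg]
    rw [sum_filter, sum_filter]
    rw [← Equiv.sum_comp π]
    apply sum_congr rfl
    intro k _
    rw [ih k i]
    simp only [ne_eq, EmbeddingLike.apply_eq_iff_eq]

lemma field_perm (π : Equiv.Perm (Fin n)) (R : Fin n → Fin n → Prop) (h0 : Fin n → Fin n → ℝ) (t : ℕ)
    (i : Fin n) :
    field f R h0 t (π i) = field f (fun a b => R (π a) (π b)) (fun a b => h0 (π a) (π b)) t i := by
  classical
  unfold field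
  rw [sum_filter, sum_filter, ← Equiv.sum_comp π]
  apply sum_congr rfl
  intro k _
  rw [msg_perm]

lemma est_perm (π : Equiv.Perm (Fin n)) (R : Fin n → Fin n → Prop) (h0 : Fin n → Fin n → ℝ)
    (c : Fin n → ℝ) (t : ℕ) (i : Fin n) :
    est f R h0 c t (π i) = est f (fun a b => R (π a) (π b)) (fun a b => h0 (π a) (π b)) (fun a => c (π a)) t i := by
  unfold est
  rw [field_perm]

open Classical in
/-- Normalised sum of the estimates over non-isolated vertices. -/
noncomputable def XR (f : ℝ → ℝ) (R : Fin n → Fin n → Prop) (h0 : Fin n → Fin n → ℝ) (c : Fin n → ℝ) (t : ℕ) : ℝ :=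
  (∑ i ∈ univ.filter (fun i => ∃ k, R k i), est f R h0 c t i) / n

lemma XR_perm (π : Equiv.Perm (Fin n)) (R : Fin n → Fin n → Prop) (h0 : Fin n → Fin n → ℝ)
    (c : Fin n → ℝ) (t : ℕ) :
    XR f (fun a b => R (π a) (π b)) (fun a b => h0 (π a) (π b)) (fun a => c (π a)) t = XR f R h0 c t := by
  classical
  unfold XR
  congr 1
  rw [sum_filter, sum_filter, ← Equiv.sum_comp π (fun i => if ∃ k, R k i then est f R h0 c t i else 0)]
  apply sum_congr rfl
  intro i _
  rw [est_perm]
  have : (∃ k, R (π k) (π i)) ↔ ∃ k, R k (π i) := by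
    constructor
    · rintro ⟨k, hk⟩; exact ⟨π k, hk⟩
    · rintro ⟨k, hk⟩; exact ⟨π.symm k, by simpa using hk⟩
  simp only [this]

lemma tieSign_abs_le {x c : ℝ} (hc : |c| ≤ 1) : |tieSign x c| ≤ 1 := by
  unfold tieSign
  split_ifs
  · simp
  · simp
  · exact hc

lemma coin_abs (ω : Om n) (i : Fin n) : |coin ω i| = 1 := by
  unfold coin; split_ifs <;> simp

lemma est_abs_le {R : Fin n → Fin n → Prop} {h0 : Fin n → Fin n → ℝ} {c : Fin n → ℝ} {t : ℕ} {i : Fin n}
    (hc : |c i| ≤ 1) : |est f R h0 c t i| ≤ 1 := tieSign_abs_le hc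

lemma XR_abs_le {R : Fin n → Fin n → Prop} {h0 : Fin n → Fin n → ℝ} {c : Fin n → ℝ} {t : ℕ}
    (hc : ∀ i, |c i| ≤ 1) : |XR f R h0 c t| ≤ 1 := by
  classical
  unfold XR
  rw [abs_div, Nat.abs_cast]
  apply div_le_one_of_le₀ _ (Nat.cast_nonneg _)
  calc |∑ i ∈ univ.filter (fun i => ∃ k, R k i), est f R h0 c t i|
      ≤ ∑ i ∈ univ.filter (fun i => ∃ k, R k i), |est f R h0 c t i| := abs_sum_le_sum_abs _ _
    _ ≤ ∑ i ∈ univ.filter (fun i => ∃ k, R k i), (1 : ℝ) := sum_le_sum (fun i _ => est_abs_le (hc i))
    _ = ((univ.filter (fun i => ∃ k, R k i)).card : ℝ) := by simp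
    _ ≤ n := by
        have := card_filter_le (univ : Finset (Fin n)) (fun i => ∃ k, R k i)
        simp only [card_univ, Fintype.card_fin] at this
        exact_mod_cast this

/-- Measurability of the messages as functions on a measurable space. -/
lemma measurable_msg {Ω : Type*} [MeasurableSpace Ω] (hf : Measurable f)
    {R : Ω → Fin n → Fin n → Prop} {h0 : Ω → Fin n → Fin n → ℝ}
    (hR : ∀ i j, MeasurableSet {ω | R ω i j}) (hh : ∀ i j, Measurable (fun ω => h0 ω i j)) (t : ℕ) :
    ∀ i j, Measurable (fun ω => msg f (R ω) (h0 ω) t i j) := by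
  classical
  induction t with
  | zero => intro i j; exact hh i j
  | succ t ih =>
    intro i j
    simp only [msg]
    simp_rw [sum_filter]
    apply Finset.measurable_fun_sum
    intro k _
    apply Measurable.ite
    · exact (hR k i).inter (MeasurableSet.const _)
    · exact hf.comp (ih k i)
    · exact measurable_const

lemma measurable_field {Ω : Type*} [MeasurableSpace Ω] (hf : Measurable f)
    {R : Ω → Fin n → Fin n → Prop} {h0 : Ω → Fin n → Fin n → ℝ}
    (hR : ∀ i j, MeasurableSet {ω | R ω i j}) (hh : ∀ i j, Measurable (fun ω => h0 ω i j)) (t : ℕ)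
    (i : Fin n) : Measurable (fun ω => field f (R ω) (h0 ω) t i) := by
  classical
  unfold field
  simp_rw [sum_filter]
  apply Finset.measurable_fun_sum
  intro k _
  apply Measurable.ite
  · exact hR k i
  · exact hf.comp (measurable_msg hf hR hh t k i)
  · exact measurable_const

lemma measurable_tieSign {Ω : Type*} [MeasurableSpace Ω] {x c : Ω → ℝ} (hx : Measurable x)
    (hc : Measurable c) : Measurable (fun ω => tieSign (x ω) (c ω)) := by
  unfold tieSign
  apply Measurable.ite
  · exact measurableSet_lt measurable_const hx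
  · exact measurable_const
  · apply Measurable.ite
    · exact measurableSet_lt hx measurable_const
    · exact measurable_const
    · exact hc

lemma measurable_est {Ω : Type*} [MeasurableSpace Ω] (hf : Measurable f)
    {R : Ω → Fin n → Fin n → Prop} {h0 : Ω → Fin n → Fin n → ℝ} {c : Ω → Fin n → ℝ}
    (hR : ∀ i j, MeasurableSet {ω | R ω i j}) (hh : ∀ i j, Measurable (fun ω => h0 ω i j))
    (hc : ∀ i, Measurable (fun ω => c ω i)) (t : ℕ)
    (i : Fin n) : Measurable (fun ω => est f (R ω) (h0 ω) (c ω) t i) :=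
  measurable_tieSign (measurable_field hf hR hh t i) (hc i)

lemma measurable_XR {Ω : Type*} [MeasurableSpace Ω] (hf : Measurable f)
    {R : Ω → Fin n → Fin n → Prop} {h0 : Ω → Fin n → Fin n → ℝ} {c : Ω → Fin n → ℝ}
    (hR : ∀ i j, MeasurableSet {ω | R ω i j}) (hh : ∀ i j, Measurable (fun ω => h0 ω i j))
    (hc : ∀ i, Measurable (fun ω => c ω i)) (t : ℕ) :
    Measurable (fun ω => XR f (R ω) (h0 ω) (c ω) t) := by
  classical
  unfold XR
  simp_rw [sum_filter]
  apply Measurable.div_const
  apply Finset.measurable_fun_sum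
  intro i _
  apply Measurable.ite
  · have : {ω | ∃ k, R ω k i} = ⋃ k, {ω | R ω k i} := by ext; simp
    rw [this]
    exact MeasurableSet.iUnion (fun k => hR k i)
  · exact measurable_est hf hR hh hc t i
  · exact measurable_const

lemma measurable_fBP (θ : ℝ) : Measurable (fBP θ) := by
  unfold fBP Real.artanh
  have ht : Measurable Real.tanh := by
    have h : Real.tanh = fun x => Real.sinh x / Real.cosh x := by
      funext x; exact Real.tanh_eq_sinh_div_cosh x
    rw [h]
    exact Real.measurable_sinh.div Real.measurable_cosh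
  fun_prop

lemma measurable_coord (i : Idx n) : Measurable (fun ω : Om n => (ω i : ℝ)) :=
  measurable_subtype_coe.comp (measurable_pi_apply i)

lemma measurable_init (i j : Fin n) : Measurable (fun ω : Om n => init ω i j) := by
  unfold init
  have := measurable_coord (n := n) (Sum.inr (Sum.inl (i, j)))
  fun_prop

lemma measurable_coin (i : Fin n) : Measurable (fun ω : Om n => coin ω i) := by
  unfold coin
  apply Measurable.ite
  · exact measurableSet_lt (measurable_coord _) measurable_const
  · exact measurable_const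
  · exact measurable_const

lemma measurable_adj (a b : ℝ) (σ : Fin n → Bool) (i j : Fin n) :
    MeasurableSet {ω : Om n | adj a b σ ω i j} := by
  unfold adj
  exact (MeasurableSet.const _).inter (measurableSet_lt (measurable_coord _) measurable_const)

end Pool.Agent.Helper87.BP
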