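import Pool.Agent.Helper87.BP.Indep

set_option autoImplicit false

namespace Pool.Agent.Helper87.BP

open MeasureTheory Finset ProbabilityTheory

variable {n : ℕ} {f : ℝ → ℝ}

/-- Random graph with edge probability `p` on the vertex set `S`. -/
def RS (p : ℝ) (S : Finset (Fin n)) (ω : Om n) (i j : Fin n) : Prop :=
  i ≠ j ∧ i ∈ S ∧ j ∈ S ∧ (ω (Sum.inl s(i, j)) : ℝ) < p

/-- The statistic of the graph on `S`. -/
noncomputable def X (f : ℝ → ℝ) (p : ℝ) (t : ℕ) (S : Finset (Fin n)) (ω : Om n) : ℝ :=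
  XR f (RS p S ω) (init ω) (coin ω) t

lemma measurable_RS (p : ℝ) (S : Finset (Fin n)) (i j : Fin n) :
    MeasurableSet {ω : Om n | RS p S ω i j} := by
  unfold RS
  exact (MeasurableSet.const _).inter ((MeasurableSet.const _).inter ((MeasurableSet.const _).inter
    (measurableSet_lt (measurable_coord _) measurable_const)))

lemma measurable_X (hf : Measurable f) (p : ℝ) (t : ℕ) (S : Finset (Fin n)) :
    Measurable (X f p t S) :=
  measurable_XR hf (measurable_RS p S) measurable_init measurable_coin t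

lemma X_abs_le (p : ℝ) (t : ℕ) (S : Finset (Fin n)) (ω : Om n) : |X f p t S ω| ≤ 1 :=
  XR_abs_le (fun i => (coin_abs ω i).le)

/-- Coordinates attached to `S`. -/
def Dmem (S : Finset (Fin n)) : Idx n → Prop
  | Sum.inl e => ∀ x ∈ e, x ∈ S
  | Sum.inr (Sum.inl q) => q.1 ∈ S ∧ q.2 ∈ S
  | Sum.inr (Sum.inr i) => i ∈ S

open Classical in
noncomputable def D (S : Finset (Fin n)) : Finset (Idx n) := univ.filter (Dmem S)

lemma mem_D {S : Finset (Fin n)} {x : Idx n} : x ∈ D S ↔ Dmem S x := by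
  simp [D]

lemma mem_D_edge {S : Finset (Fin n)} {i j : Fin n} (hi : i ∈ S) (hj : j ∈ S) :
    (Sum.inl s(i, j) : Idx n) ∈ D S := by
  rw [mem_D]
  intro x hx
  rw [Sym2.mem_iff] at hx
  rcases hx with rfl | rfl <;> assumption

lemma RS_congr {p : ℝ} {S : Finset (Fin n)} {ω ω' : Om n} (h : ∀ i ∈ D S, ω i = ω' i) :
    RS p S ω = RS p S ω' := by
  funext i j
  unfold RS
  by_cases hi : i ∈ S
  · by_cases hj : j ∈ S
    · rw [h _ (mem_D_edge hi hj)]
    · simp [hj]
  · simp [hi]

lemma dependsOn_X (p : ℝ) (t : ℕ) (S : Finset (Fin n)) :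
    DependsOn (X f p t S) (D S : Set (Idx n)) := by
  classical
  intro ω ω' h
  have h' : ∀ i ∈ D S, ω i = ω' i := fun i hi => h i (by exact_mod_cast hi)
  have hR := RS_congr (p := p) h'
  unfold X XR
  rw [← hR]
  congr 1
  apply sum_congr rfl
  intro i hi
  simp only [mem_filter, mem_univ, true_and] at hi
  obtain ⟨k, hk⟩ := hi
  have hiS : i ∈ S := hk.2.2.1
  apply est_local (fun i => i ∈ S) (fun _ _ _ => Iff.rfl) (fun k i _ hki => hki.2.1)
  · intro i j hi hj
    unfold init
    rw [h' _ (by rw [mem_D]; exact ⟨hi, hj⟩)]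
  · exact hiS
  · unfold coin
    rw [h' _ (by rw [mem_D]; exact hiS)]

lemma disjoint_D {S T : Finset (Fin n)} (h : Disjoint S T) : Disjoint (D S) (D T) := by
  rw [disjoint_left]
  intro x hx hy
  rw [mem_D] at hx hy
  rw [disjoint_left] at h
  rcases x with e | q | i
  · induction e using Sym2.ind with
    | _ a b => exact h (hx a (by simp)) (hy a (by simp))
  · exact h hx.1 hy.1
  · exact h hx hy

/-- The event that `v` is isolated in the graph on `T`. -/
def iso (p : ℝ) (T : Finset (Fin n)) (v : Fin n) : Set (Om n) :=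
  {ω | ∀ w ∈ T, w ≠ v → p ≤ (ω (Sum.inl s(v, w)) : ℝ)}

lemma RS_erase {p : ℝ} {T : Finset (Fin n)} {v : Fin n} {ω : Om n} (h : ω ∈ iso p T v) :
    RS p T ω = RS p (T.erase v) ω := by
  classical
  funext i j
  unfold RS
  simp only [eq_iff_iff, mem_erase]
  constructor
  · rintro ⟨hij, hi, hj, hlt⟩
    refine ⟨hij, ⟨?_, hi⟩, ⟨?_, hj⟩, hlt⟩
    · rintro rfl
      have := h j hj (Ne.symm hij)
      linarith
    · rintro rfl
      have := h i hi hij
      rw [Sym2.eq_swap] at this
      linarith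
  · rintro ⟨hij, ⟨_, hi⟩, ⟨_, hj⟩, hlt⟩
    exact ⟨hij, hi, hj, hlt⟩

/-- Edge coordinates at `v`. -/
def star (T : Finset (Fin n)) (v : Fin n) : Finset (Idx n) :=
  (T.erase v).image (fun w => (Sum.inl s(v, w) : Idx n))

lemma star_inj {v w w' : Fin n} (h : (Sum.inl s(v, w) : Idx n) = Sum.inl s(v, w')) : w = w' := by
  have h1 := Sum.inl_injective h
  rw [Sym2.eq_iff] at h1
  rcases h1 with ⟨_, h⟩ | ⟨h, h'⟩
  · exact h
  · rw [h', h]

lemma card_star (T : Finset (Fin n)) {v : Fin n} (hv : v ∈ T) : (star T v).card = T.card - 1 := by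
  unfold star
  rw [card_image_of_injective _ (fun w w' h => star_inj h), card_erase_of_mem hv]

lemma iso_eq (p : ℝ) (T : Finset (Fin n)) (v : Fin n) :
    iso p T v = {ω : Om n | ∀ e ∈ star T v, p ≤ (ω e : ℝ)} := by
  ext ω
  simp only [iso, star, Set.mem_ofPred_eq, mem_image, mem_erase]
  constructor
  · rintro h e ⟨w, ⟨hwv, hw⟩, rfl⟩
    exact h w hw hwv
  · intro h w hw hwv
    exact h _ ⟨w, ⟨hwv, hw⟩, rfl⟩

lemma measurable_iso (p : ℝ) (T : Finset (Fin n)) (v : Fin n) : MeasurableSet (iso (n := n) p T v) := by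
  have : iso (n := n) p T v = ⋂ w ∈ T, ⋂ (_ : w ≠ v), {ω | p ≤ (ω (Sum.inl s(v, w)) : ℝ)} := by
    ext ω; simp [iso]
  rw [this]
  refine Finset.measurableSet_biInter _ (fun w _ => MeasurableSet.iInter (fun _ => ?_))
  exact measurableSet_le measurable_const (measurable_coord _)

lemma prob_iso {p : ℝ} (h0 : 0 ≤ p) (h1 : p ≤ 1) (T : Finset (Fin n)) {v : Fin n} (hv : v ∈ T) :
    (volume : Measure (Om n)).real (iso p T v) = (1 - p) ^ (T.card - 1) := by
  rw [iso_eq, prob_all_ge h0 h1, card_star T hv]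

lemma prob_iso_two {p : ℝ} (h0 : 0 ≤ p) (h1 : p ≤ 1) (T : Finset (Fin n)) {v w : Fin n} (hv : v ∈ T)
    (hw : w ∈ T) (hvw : v ≠ w) :
    (volume : Measure (Om n)).real (iso p T v ∩ iso p T w) = (1 - p) ^ (2 * T.card - 3) := by
  have e : iso p T v ∩ iso p T w = {ω : Om n | ∀ e ∈ star T v ∪ star T w, p ≤ (ω e : ℝ)} := by
    ext ω
    simp only [iso_eq, Set.mem_inter_iff, Set.mem_ofPred_eq, mem_union]
    constructor
    · rintro ⟨h1, h2⟩ e (he | he)
      · exact h1 e he
      · exact h2 e he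
    · intro h
      exact ⟨fun e he => h e (Or.inl he), fun e he => h e (Or.inr he)⟩
  rw [e, prob_all_ge h0 h1]
  congr 1
  have hint : star T v ∩ star T w = {(Sum.inl s(v, w) : Idx n)} := by
    ext x
    simp only [star, mem_inter, mem_image, mem_erase, mem_singleton]
    constructor
    · rintro ⟨⟨a, ⟨_, _⟩, rfl⟩, ⟨b, ⟨_, _⟩, hb⟩⟩
      have h1 := Sum.inl_injective hb
      rw [Sym2.eq_iff] at h1
      rcases h1 with ⟨h, _⟩ | ⟨h, _⟩
      · exact absurd h.symm hvw
      · rw [h]
    · rintro rfl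
      exact ⟨⟨w, ⟨hvw.symm, hw⟩, rfl⟩, ⟨v, ⟨hvw, hv⟩, by rw [Sym2.eq_swap]⟩⟩
  have hc := card_union_add_card_inter (star T v) (star T w)
  rw [hint, card_singleton, card_star T hv, card_star T hw] at hc
  have : 1 < T.card := by
    rw [one_lt_card]
    exact ⟨v, hv, w, hw, hvw⟩
  omega

lemma indep_iso {p : ℝ} (t : ℕ) (hf : Measurable f) (T : Finset (Fin n)) (v : Fin n) (I : Set ℝ)
    (hI : MeasurableSet I) :
    (volume : Measure (Om n)).real (iso p T v ∩ {ω | X f p t (T.erase v) ω ∈ I})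
      = (volume : Measure (Om n)).real (iso p T v)
        * (volume : Measure (Om n)).real {ω | X f p t (T.erase v) ω ∈ I} := by
  classical
  apply indep_real (A := star T v) (B := D (T.erase v))
  · rw [disjoint_left]
    intro x hx hy
    simp only [star, mem_image, mem_erase] at hx
    obtain ⟨w, _, rfl⟩ := hx
    rw [mem_D] at hy
    have := hy v (by simp)
    simp at this
  · exact measurable_iso p T v
  · exact (measurable_X hf p t _) hI
  · intro ω ω' h
    simp only [iso_eq, Set.mem_ofPred_eq, eq_iff_iff]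
    constructor
    · intro h1 e he
      rw [← h e (by exact_mod_cast he)]; exact h1 e he
    · intro h1 e he
      rw [h e (by exact_mod_cast he)]; exact h1 e he
  · intro ω ω' h
    have := dependsOn_X (f := f) p t (T.erase v) h
    simp only [Set.mem_ofPred_eq]
    rw [this]

/-- Relabelling of unordered pairs. -/
def symPerm (π : Equiv.Perm (Fin n)) : Sym2 (Fin n) ≃ Sym2 (Fin n) where
  toFun := Sym2.map π
  invFun := Sym2.map π.symm
  left_inv := by intro x; rw [Sym2.map_map]; simp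
  right_inv := by intro x; rw [Sym2.map_map]; simp

/-- Relabelling of the index set. -/
def idxPerm (π : Equiv.Perm (Fin n)) : Idx n ≃ Idx n :=
  Equiv.sumCongr (symPerm π) (Equiv.sumCongr (Equiv.prodCongr π π) π)

lemma mp_relabel (π : Equiv.Perm (Fin n)) :
    MeasurePreserving (fun (ω : Om n) (i : Idx n) => ω (idxPerm π i)) volume volume := by
  have h := volume_measurePreserving_piCongrLeft (fun _ : Idx n => unitInterval) (idxPerm π).symm
  have e : (MeasurableEquiv.piCongrLeft (fun _ : Idx n => unitInterval) (idxPerm π).symm : Om n → Om n)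
      = (fun (ω : Om n) (i : Idx n) => ω (idxPerm π i)) := by
    funext ω i
    obtain ⟨j, rfl⟩ := (idxPerm π).symm.surjective i
    rw [MeasurableEquiv.coe_piCongrLeft]
    rw [Equiv.piCongrLeft_apply_apply]
    simp
  rw [e] at h
  exact h

lemma X_relabel (π : Equiv.Perm (Fin n)) (p : ℝ) (t : ℕ) (S : Finset (Fin n)) (ω : Om n) :
    X f p t S (fun i => ω (idxPerm π i)) = X f p t (S.map π.toEmbedding) ω := by
  unfold X
  rw [← XR_perm π (RS p (S.map π.toEmbedding) ω) (init ω) (coin ω) t]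
  have h1 : RS p S (fun i => ω (idxPerm π i))
      = fun a b => RS p (S.map π.toEmbedding) ω (π a) (π b) := by
    funext i j
    unfold RS
    simp [idxPerm, symPerm]
  have h2 : init (fun i => ω (idxPerm π i)) = fun a b => init ω (π a) (π b) := by
    funext i j
    simp [init, idxPerm]
  have h3 : coin (fun i => ω (idxPerm π i)) = fun a => coin ω (π a) := by
    funext i
    simp [coin, idxPerm]
  rw [h1, h2, h3]

/-- Probability that the statistic on `S` lies in `I`. -/
noncomputable def q (f : ℝ → ℝ) (p : ℝ) (t : ℕ) (I : Set ℝ) (S : Finset (Fin n)) : ℝ :=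
  (volume : Measure (Om n)).real {ω | X f p t S ω ∈ I}

lemma q_card (hf : Measurable f) (p : ℝ) (t : ℕ) (I : Set ℝ) (hI : MeasurableSet I)
    {S S' : Finset (Fin n)} (h : S.card = S'.card) : q f p t I S = q f p t I S' := by
  classical
  obtain ⟨π, hπ⟩ : ∃ π : Equiv.Perm (Fin n), S.map π.toEmbedding = S' := by
    let e : {x // x ∈ S} ≃ {x // x ∈ S'} := Finset.equivOfCardEq h
    refine ⟨e.extendSubtype, ?_⟩
    apply eq_of_subset_of_card_le
    · intro y hy
      rw [mem_map] at hy
      obtain ⟨x, hx, rfl⟩ := hy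
      exact e.extendSubtype_mem x hx
    · rw [card_map, h]
  have h1 : {ω : Om n | X f p t S' ω ∈ I}
      = {ω : Om n | X f p t S (fun i => ω (idxPerm π i)) ∈ I} := by
    ext ω
    simp only [Set.mem_ofPred_eq]
    rw [X_relabel, hπ]
  unfold q
  rw [h1]
  have h2 := (mp_relabel π).measureReal_preimage (s := {ω : Om n | X f p t S ω ∈ I})
    ((measurable_X hf p t S) hI).nullMeasurableSet
  rw [← h2]
  rfl

end Pool.Agent.Helper87.BP
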